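import Pool.Agent.Helper812_FF.Num
import Pool.Agent.Helper812_MT.Prime

/-!
# A motivic t-structure implies Parshin's conjecture and that of Beilinson
-/

set_option autoImplicit false
set_option linter.unusedSectionVars false
set_option linter.unusedSimpArgs false
set_option backward.isDefEq.respectTransparency false
set_option backward.defeqAttrib.useBackward true

open CategoryTheory Limits MonoidalCategory Pretriangulated Triangulated ZeroObject

namespace Pool.Agent.Helper812_FF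

open Pool.Agent.Y116.MT Pool.Agent.V1178.MT Pool.Agent.Helper812_LT Pool.Agent.Helper812_MT
open Functor.LaxMonoidal

universe v u w

section

variable {C : Type u} [Category.{v} C] [Preadditive C] [Linear ℚ C] [HasZeroObject C]
  [HasShift C ℤ] [∀ n : ℤ, (shiftFunctor C n).Additive] [Pretriangulated C] [MonoidalCategory C]
  [SymmetricCategory C] [TensorTriangulated C] [MonoidalPreadditive C] [RightRigidCategory C]
  [IsTriangulated C] {E : Type w} [Field E] {R : Realisation C E} {t : TStructure C}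
  {φ : 𝟭 C ⟶ 𝟭 C}

/-- The polynomials which annihilate the cohomology annihilate the object. -/
theorem ann (ht : TensorCompat t) (he : TExact t R) (hu : Hrt t (𝟙_ C))
    (hid : ∀ e : 𝟙_ C ⟶ 𝟙_ C, e ≫ e = e → e = 0 ∨ e = 𝟙 _) (q : ℤ → Polynomial ℚ) (n : ℕ) :
    ∀ (X : C) (a : ℤ), t.IsGE X a → t.IsLE X (a + n - 1) →
      (∀ i, R.H.map ((ev (φ.app X) (q i))⟦i⟧') = 0) →
      ev (φ.app X) (∏ i ∈ Finset.Ico a (a + n), q i) = 0 := by
  induction n with
  | zero =>
    intro X a h1 h2 _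
    have h3 : IsZero X := t.isZero X (a + ((0 : ℕ) : ℤ) - 1) a (by push_cast; omega)
    exact h3.eq_of_src _ _
  | succ n ih =>
    intro X a h1 h2 hk
    set b : ℤ := a + n with hb
    have hA1 : t.IsLE ((t.truncLT b).obj X) (b - 1) := inferInstance
    have hB1 : t.IsGE ((t.truncGE b).obj X) b := inferInstance
    have hT := t.triangleLTGE_distinguished b X
    have hA2 : t.IsGE ((t.truncLT b).obj X) a :=
      isGE1 hT h1 (t.isGE_of_ge _ (a - 1) b (by omega))
    have hB2 : t.IsLE ((t.truncGE b).obj X) b :=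
      isLE3 hT (t.isLE_of_le _ (b - 1) (b + 1) (by omega))
        (show t.IsLE X b from t.isLE_of_le X (a + ((n + 1 : ℕ) : ℤ) - 1) b (by push_cast; omega))
    have nA : ∀ i : ℤ, (ev (φ.app ((t.truncLT b).obj X)) (q i) :
        (t.truncLT b).obj X ⟶ (t.truncLT b).obj X) ≫ (t.truncLTι b).app X =
        (t.truncLTι b).app X ≫ (ev (φ.app X) (q i) : X ⟶ X) := fun i => ev_nat φ _ _
    have nB : (ev (φ.app X) (q b) : X ⟶ X) ≫ (t.truncGEπ b).app X = (t.truncGEπ b).app X ≫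
        (ev (φ.app ((t.truncGE b).obj X)) (q b) : (t.truncGE b).obj X ⟶ (t.truncGE b).obj X) :=
      ev_nat φ _ _
    have kA : ev (φ.app ((t.truncLT b).obj X)) (∏ i ∈ Finset.Ico a (a + n), q i) = 0 := by
      refine ih _ a hA2 (by simpa [hb] using hA1) fun i => ?_
      by_cases hi : i < b
      · have hm : Mono (R.H.map (((t.truncLTι b).app X)⟦i⟧')) :=
          hmono1 R.H hT i (he.isGE hB1 _ (by omega))
        have h3 := congrArg (fun k => R.H.map (k⟦i⟧')) (nA i)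
        simp only [Functor.map_comp] at h3
        refine (cancel_mono (R.H.map (((t.truncLTι b).app X)⟦i⟧'))).1 ?_
        refine h3.trans ?_
        rw [hk i, comp_zero, zero_comp]
      · exact (he.isLE hA1 i (by omega)).eq_of_src _ _
    have kB : ev (φ.app ((t.truncGE b).obj X)) (q b) = 0 := by
      have hep : Epi (R.H.map (((t.truncGEπ b).app X)⟦b⟧')) :=
        hepi2 R.H hT b (he.isLE hA1 _ (by omega))
      have h3 := congrArg (fun k => R.H.map (k⟦b⟧')) nB
      simp only [Functor.map_comp] at h3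
      apply (shiftFunctor C b).map_injective
      rw [Functor.map_zero]
      refine faithful_heart ht he hu hid (M := ((t.truncGE b).obj X)⟦b⟧)
        (N := ((t.truncGE b).obj X)⟦b⟧) ⟨t.isLE_shift _ b b 0, t.isGE_shift _ b b 0⟩
        ⟨t.isLE_shift _ b b 0, t.isGE_shift _ b b 0⟩ _ ?_
      refine (cancel_epi (R.H.map (((t.truncGEπ b).app X)⟦b⟧'))).1 ?_
      refine h3.symm.trans ?_
      rw [hk b, comp_zero, zero_comp]
    have h5 : (ev (φ.app X) (q b) : X ⟶ X) ≫ (t.truncGEπ b).app X = 0 :=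
      nB.trans ((congrArg ((t.truncGEπ b).app X ≫ ·) kB).trans comp_zero)
    obtain ⟨y, hy⟩ := Triangle.coyoneda_exact₂ _ hT (ev (φ.app X) (q b) : X ⟶ X) h5
    have h6 : Finset.Ico a (a + ((n + 1 : ℕ) : ℤ)) = insert b (Finset.Ico a (a + n)) := by
      ext i
      simp only [Finset.mem_Ico, Finset.mem_insert]
      push_cast
      omega
    rw [h6, Finset.prod_insert (by simp [hb]), ev_mul]
    have h7 : (t.truncLTι b).app X ≫ (ev (φ.app X) (∏ i ∈ Finset.Ico a (a + n), q i) : X ⟶ X) = 0 := by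
      have h8 : (ev (φ.app ((t.truncLT b).obj X)) (∏ i ∈ Finset.Ico a (a + n), q i) :
        (t.truncLT b).obj X ⟶ (t.truncLT b).obj X) ≫ (t.truncLTι b).app X =
        (t.truncLTι b).app X ≫ (ev (φ.app X) (∏ i ∈ Finset.Ico a (a + n), q i) : X ⟶ X) :=
        ev_nat φ _ _
      rw [← h8]
      exact (congrArg (· ≫ (t.truncLTι b).app X) kA).trans zero_comp
    calc (ev (φ.app X) (q b) : X ⟶ X) ≫ (ev (φ.app X) (∏ i ∈ Finset.Ico a (a + n), q i) : X ⟶ X)
        = (y ≫ (t.truncLTι b).app X) ≫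
          (ev (φ.app X) (∏ i ∈ Finset.Ico a (a + n), q i) : X ⟶ X) := by rw [hy]; rfl
      _ = 0 := by rw [Category.assoc, h7, comp_zero]

lemma hid_of_hq (R : Realisation C E) (hq : ∀ e : 𝟙_ C ⟶ 𝟙_ C, ∃ a : ℚ, e = a • 𝟙 _)
    (e : 𝟙_ C ⟶ 𝟙_ C) (he : e ≫ e = e) : e = 0 ∨ e = 𝟙 _ := by
  obtain ⟨a, rfl⟩ := hq e
  have hne : 𝟙 (𝟙_ C) ≠ 0 := fun h => not_isZero_unit R ((IsZero.iff_id_eq_zero _).2 h)
  rw [Linear.smul_comp, Linear.comp_smul, Category.comp_id, smul_smul] at he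
  have h1 : a * a = a := smul_left_injective ℚ hne he
  have h2 : a * (a - 1) = 0 := by rw [mul_sub, h1, mul_one, sub_self]
  rcases mul_eq_zero.1 h2 with h | h
  · left
    rw [h, zero_smul]
  · right
    rw [sub_eq_zero.1 h, one_smul]

end

section

variable {C : Type u} [Category.{v} C] [Preadditive C] [Linear ℚ C] [HasZeroObject C]
  [HasShift C ℤ] [∀ n : ℤ, (shiftFunctor C n).Additive] [Pretriangulated C] [MonoidalCategory C]
  [SymmetricCategory C] [TensorTriangulated C] [MonoidalPreadditive C] [RightRigidCategory C]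
  [IsTriangulated C] [IsIdempotentComplete C] {Λ : Type*} {E : Λ → Type w} [∀ l, Field (E l)]
  {R : ∀ l, Realisation C (E l)} {P : ObjectProperty C} {φ : 𝟭 C ⟶ 𝟭 C} [Nonempty Λ]
  {t : TStructure C}

theorem numerical_of_motivic (hq : ∀ e : 𝟙_ C ⟶ 𝟙_ C, ∃ a : ℚ, e = a • 𝟙 _)
    (hP : ChowMotives P) (hφ : FrobeniusWeights P R φ) (h : IsMotivic t R) :
    Parshin P ∧ RationalIsNumerical P := by
  have l : Λ := Classical.arbitrary Λ
  have hid := hid_of_hq (R l) hq
  have ht : TensorCompat t := ⟨h.tensor_le, h.tensor_ge⟩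
  have hu : Hrt t (𝟙_ C) := unit_hrt ht h.nondeg_le h.nondeg_ge
  have he : TExact t (R l) := ⟨h.exact_le l, h.exact_ge l⟩
  have hc : Conservative (R l) := conservative_of_motivic hid h l
  obtain ⟨p, hp1, hp2⟩ := hφ.weights
  have hunit : ev (φ.app (𝟙_ C)) (p (𝟙_ C) 0) = 0 := by
    by_contra hne
    apply H_unit_ne (R l) hq _ hne
    have h1 := hp2 (𝟙_ C) 0 l hP.unit
    have h2 : (R l).H.map ((ev (φ.app (𝟙_ C)) (p (𝟙_ C) 0) : 𝟙_ C ⟶ 𝟙_ C)⟦(0 : ℤ)⟧') = 0 := h1
    have h3 : (ev (φ.app (𝟙_ C)) (p (𝟙_ C) 0) : 𝟙_ C ⟶ 𝟙_ C)⟦(0 : ℤ)⟧' =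
      (shiftFunctorZero C ℤ).hom.app _ ≫ (ev (φ.app (𝟙_ C)) (p (𝟙_ C) 0) : 𝟙_ C ⟶ 𝟙_ C) ≫
        (shiftFunctorZero C ℤ).inv.app _ := shiftZero' (A := ℤ) (f := _)
    rw [h3, Functor.map_comp, Functor.map_comp] at h2
    rw [← cancel_epi ((R l).H.map ((shiftFunctorZero C ℤ).hom.app (𝟙_ C))),
      ← cancel_mono ((R l).H.map ((shiftFunctorZero C ℤ).inv.app (𝟙_ C))), Category.assoc, h2,
      comp_zero, zero_comp]
  have hP0 : ∀ X, P X → ∀ m : ℤ, 0 < m → ∀ f : X ⟶ (𝟙_ C)⟦m⟧, f = 0 := fun X hX m hm f =>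
    zero_of_unit' m (hP.orthogonal _ (hP.dual _ hX) m hm) f
  have main : ∀ X, P X → (∀ n : ℤ, n < 0 → ∀ f : 𝟙_ C ⟶ X⟦n⟧, f = 0) ∧
      (∀ s : 𝟙_ C ⟶ X, s ≠ 0 → ∃ r : X ⟶ 𝟙_ C, s ≫ r ≠ 0) := by
    intro X hX
    have hk : Kills R φ (p X) X := fun i l => hp2 X i l hX
    obtain ⟨N, hN1, hN2⟩ := bounded_of hc he X
    have hann := ann ht he hu hid (p X) (2 * N + 1) X (-N) hN2
      (t.isLE_of_le X N _ (by push_cast; omega)) (fun i => hk i l)
    refine decompose (φ := φ) (p X) (fun i j hij => hp1 X X i j hX hX hij)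
      (fun X => (∀ n : ℤ, n < 0 → ∀ f : 𝟙_ C ⟶ X⟦n⟧, f = 0) ∧
        (∀ s : 𝟙_ C ⟶ X, s ≠ 0 → ∃ r : X ⟶ 𝟙_ C, s ≫ r ≠ 0))
      (fun Y => P Y ∧ Kills R φ (p X) Y)
      (fun Y Z i r hir h => ⟨hP.summand Y Z i r hir h.1, h.2.retract i r hir⟩)
      (fun Y hY => ⟨fun n _ f => (isZero_shift hY n).eq_of_tgt _ _,
        fun s hs => absurd (hY.eq_of_tgt s 0) hs⟩)
      (fun Y Y₁ Y₂ i₁ r₁ i₂ r₂ d h1 h2 => ⟨fun n hn f => ?_, fun s hs => ?_⟩)
      (fun Z i hZ hi => ?_) _ X ⟨hX, hk⟩ hann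
    · have h3 : r₁⟦n⟧' ≫ i₁⟦n⟧' + r₂⟦n⟧' ≫ i₂⟦n⟧' = 𝟙 _ := (d.map (shiftFunctor C n)).sum
      rw [← Category.comp_id f, ← h3, Preadditive.comp_add, ← Category.assoc, ← Category.assoc,
        h1.1 n hn (f ≫ r₁⟦n⟧'), h2.1 n hn (f ≫ r₂⟦n⟧'), zero_comp, zero_comp, add_zero]
    · by_cases h3 : s ≫ r₁ = 0
      · have h4 : s ≫ r₂ ≠ 0 := by
          intro h4
          apply hs
          rw [← Category.comp_id s, ← d.sum, Preadditive.comp_add, ← Category.assoc,
            ← Category.assoc, h3, h4, zero_comp, zero_comp, add_zero]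
        obtain ⟨r, hr⟩ := h2.2 _ h4
        exact ⟨r₂ ≫ r, by rwa [← Category.assoc]⟩
      · obtain ⟨r, hr⟩ := h1.2 _ h3
        exact ⟨r₁ ≫ r, by rwa [← Category.assoc]⟩
    · by_cases hi0 : i = 0
      · subst hi0
        have hd : InDegrees R {0} Z := hZ.2.inDegrees
          (fun i j hij => hp1 X X i j hX hX hij) hi
        have hH : Hrt t Z := ⟨isLE_of hc he fun i hi => hd l i (by
            simp only [Set.mem_singleton_iff]
            omega), isGE_of hc he fun i hi => hd l i (by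
            simp only [Set.mem_singleton_iff]
            omega)⟩
        refine ⟨fun n hn f => ?_, fun s hs => ?_⟩
        · have h3 : t.IsGE Z 0 := hH.2
          have h4 : t.IsGE (Z⟦n⟧) (-n) := t.isGE_shift Z 0 n (-n) (by omega)
          exact t.zero_of_isLE_of_isGE f 0 (-n) (by omega) hu.1 h4
        · exact heart_pairing ht he hu hid hH P hP.unit (fun Y hY => hP.tensor _ _ hY hZ.1) hP0
            s hs
      · have hz : ∀ (n : ℤ) (f : 𝟙_ C ⟶ Z⟦n⟧), f = 0 := fun n f =>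
          hom_shift_zero hφ.shift hunit hi (hp1 (𝟙_ C) X 0 i hP.unit hX (Ne.symm hi0)) n f
        refine ⟨fun n _ f => hz n f, fun s hs => ?_⟩
        exfalso
        apply hs
        rw [← cancel_mono ((shiftFunctorZero C ℤ).inv.app Z), zero_comp]
        exact hz 0 _
  exact ⟨fun X hX => (main X hX).1, fun X hX => (main X hX).2⟩

end

end Pool.Agent.Helper812_FF
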