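import Pool.Agent.Helper812_FF.Fai

/-!
# Rational and numerical equivalence agree, and Parshin's conjecture: all realisations are faithful
-/

set_option autoImplicit false
set_option linter.unusedSectionVars false
set_option linter.unusedSimpArgs false
set_option backward.isDefEq.respectTransparency false
set_option backward.defeqAttrib.useBackward true

open CategoryTheory Limits MonoidalCategory Pretriangulated Triangulated ZeroObject

namespace Pool.Agent.Helper812_FF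

open Pool.Agent.Y116.MT Pool.Agent.V1178.MT Pool.Agent.Helper812_LT Pool.Agent.Helper812_MT
open Functor.LaxMonoidal

universe v u w

section

variable {C : Type u} [Category.{v} C] [Preadditive C] [Linear ℚ C] [HasZeroObject C]
  [HasShift C ℤ] [∀ n : ℤ, (shiftFunctor C n).Additive] [Pretriangulated C] [MonoidalCategory C]
  [SymmetricCategory C] [TensorTriangulated C] [MonoidalPreadditive C] [RightRigidCategory C]
  {Λ : Type*} {E : Λ → Type w} [∀ l, Field (E l)]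
  {R : ∀ l, Realisation C (E l)} {P : ObjectProperty C} {φ : 𝟭 C ⟶ 𝟭 C}

/-- The realisation of a non zero multiple of the identity of the unit is not zero. -/
lemma H_unit_ne {E' : Type w} [Field E'] (R' : Realisation C E')
    (hq : ∀ e : 𝟙_ C ⟶ 𝟙_ C, ∃ a : ℚ, e = a • 𝟙 _)
    (e : 𝟙_ C ⟶ 𝟙_ C) (he : e ≠ 0) : R'.H.map e ≠ 0 := by
  obtain ⟨a, rfl⟩ := hq e
  have ha : a ≠ 0 := by
    rintro rfl
    exact he (zero_smul _ _)
  intro h
  apply not_isZero_H_unit R'
  rw [IsZero.iff_id_eq_zero, ← CategoryTheory.Functor.map_id]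
  have h1 : 𝟙 (𝟙_ C) = (a • 𝟙 (𝟙_ C)) ≫ (a⁻¹ • 𝟙 (𝟙_ C)) := by
    rw [Linear.smul_comp, Linear.comp_smul, Category.comp_id, smul_smul, mul_inv_cancel₀ ha,
      one_smul]
  rw [h1, Functor.map_comp, h, zero_comp]

/-- If rational and numerical equivalence agree, the realisations are faithful on the class of
Chow motives. -/
lemma faithful_on (hq : ∀ e : 𝟙_ C ⟶ 𝟙_ C, ∃ a : ℚ, e = a • 𝟙 _) (hP : ChowMotives P)
    (hN : RationalIsNumerical P) {E' : Type w} [Field E'] {R' : Realisation C E'} {X Y : C}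
    (hX : P X) (hY : P Y) (f : X ⟶ Y) (hf : ∀ i : ℤ, R'.H.map (f⟦i⟧') = 0) : f = 0 := by
  apply eq_zero_of_nm
  by_contra h
  obtain ⟨r, hr⟩ := hN _ (hP.tensor _ _ hY (hP.dual _ hX)) (nm f) h
  refine H_unit_ne R' hq _ hr ?_
  rw [Functor.map_comp, nm, Functor.map_comp, map_whisker_zero_of f hf, comp_zero, zero_comp]

/-- The morphisms between Chow motives of different degrees. -/
lemma hom_zero_P (hP : ChowMotives P) (hPa : Parshin P) {X Y : C} (hX : P X) (hY : P Y) {n : ℤ}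
    (hn : n ≠ 0) (f : X ⟶ Y⟦n⟧) : f = 0 := by
  refine zero_of_unit n (fun g => ?_) f
  rcases lt_or_gt_of_ne hn with h | h
  · exact hPa _ (hP.tensor _ _ hY (hP.dual _ hX)) n h g
  · exact hP.orthogonal _ (hP.tensor _ _ hY (hP.dual _ hX)) n h g

lemma reg_P (hq : ∀ e : 𝟙_ C ⟶ 𝟙_ C, ∃ a : ℚ, e = a • 𝟙 _) (hP : ChowMotives P)
    (hN : RationalIsNumerical P) {E' : Type w} [Field E'] (R' : Realisation C E') {X Y : C}
    {a : ℤ} (hX : P X) (hY : P Y) (hX' : R'.Deg X a) (hY' : R'.Deg Y a) : Reg X Y := by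
  apply reg_of_end
  apply Reg.of_shift a
  have hQ : R'.Deg (X ⊞ Y) a := fun i hi =>
    hz2 R'.H (binaryBiproductTriangle_distinguished X Y) i (hX' i hi) (hY' i hi)
  refine reg_end R' hq (hQ.shift a 0 (by ring)) (fun s hs => ?_)
  obtain ⟨r, hr⟩ := hN _ (hP.tensor _ _ (hP.sum _ _ hX hY) (hP.dual _ (hP.sum _ _ hX hY)))
    (s ≫ (endShift (X ⊞ Y) a).hom) (fun h => hs (by
      rw [← cancel_mono (endShift (X ⊞ Y) a).hom, h, zero_comp]))
  exact ⟨(endShift (X ⊞ Y) a).hom ≫ r, by rwa [← Category.assoc]⟩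

/-- The shifts of the Chow motives in a single degree. -/
def Pure (P : ObjectProperty C) (R : ∀ l, Realisation C (E l)) : ObjectProperty C := fun X =>
  ∃ (Z : C) (m w : ℤ), P Z ∧ InDegrees R {w} Z ∧ Nonempty (X ≅ Z⟦m⟧)

/-- The transition from the objects `Z⟦m⟧` to isomorphic objects. -/
lemma reg_iso {X Y X' Y' : C} (e : X ≅ X') (e' : Y ≅ Y') (h : Reg X' Y') : Reg X Y :=
  (h.left_retract e.hom e.inv e.hom_inv_id).right_retract e'.hom e'.inv e'.hom_inv_id

variable [Nonempty Λ]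

/-- Morphisms between pure objects. -/
lemma pure_pair (hq : ∀ e : 𝟙_ C ⟶ 𝟙_ C, ∃ a : ℚ, e = a • 𝟙 _) (hP : ChowMotives P)
    (hφ : FrobeniusWeights P R φ) (hPa : Parshin P) (hN : RationalIsNumerical P)
    {Z Z' : C} {m m' w w' : ℤ} (hZ : P Z) (hZ' : P Z') (hw : InDegrees R {w} Z)
    (hw' : InDegrees R {w'} Z') :
    (∀ f : Z⟦m⟧ ⟶ Z'⟦m'⟧, f = 0) ∨ (m = m' ∧ w = w') := by
  obtain ⟨p, hp1, hp2⟩ := hφ.weights
  have l : Λ := Classical.arbitrary Λ
  have hz : ∀ n : ℤ, m' = n + m → (∀ g : Z ⟶ Z'⟦n⟧, g = 0) → ∀ f : Z⟦m⟧ ⟶ Z'⟦m'⟧, f = 0 := by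
    intro n hn h f
    obtain ⟨g, hg⟩ := (shiftFunctor C m).map_surjective
      (f ≫ ((shiftFunctorAdd' C n m m' hn.symm).app Z').hom)
    rw [h g, Functor.map_zero] at hg
    rw [← cancel_mono ((shiftFunctorAdd' C n m m' hn.symm).app Z').hom, ← hg, zero_comp]
  by_cases hww : w = w'
  · by_cases hmm : m = m'
    · exact Or.inr ⟨hmm, hww⟩
    · exact Or.inl (hz (m' - m) (by ring) (hom_zero_P hP hPa hZ hZ' (by omega)))
  · refine Or.inl (hz (m' - m) (by ring) (fun g => ?_))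
    have h1 : ev (φ.app Z) (p Z w) = 0 := by
      refine faithful_on (R' := R l) hq hP hN hZ hZ _ fun i => ?_
      by_cases hi : i = w
      · subst hi
        exact hp2 Z i l hZ
      · exact (hw l i (by simpa using hi)).eq_of_src _ _
    have h2 : ev (φ.app Z') (p Z' w') = 0 := by
      refine faithful_on (R' := R l) hq hP hN hZ' hZ' _ fun i => ?_
      by_cases hi : i = w'
      · subst hi
        exact hp2 Z' i l hZ'
      · exact (hw' l i (by simpa using hi)).eq_of_src _ _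
    exact hom_shift_zero hφ.shift h1 h2 (hp1 Z Z' w w' hZ hZ' hww) _ g

lemma pure_reg (hq : ∀ e : 𝟙_ C ⟶ 𝟙_ C, ∃ a : ℚ, e = a • 𝟙 _) (hP : ChowMotives P)
    (hφ : FrobeniusWeights P R φ) (hPa : Parshin P) (hN : RationalIsNumerical P) (X Y : C)
    (hX : Pure P R X) (hY : Pure P R Y) : Reg X Y := by
  obtain ⟨Z, m, w, hZ, hw, ⟨e⟩⟩ := hX
  obtain ⟨Z', m', w', hZ', hw', ⟨e'⟩⟩ := hY
  refine reg_iso e e' ?_
  rcases pure_pair (m := m) (m' := m') hq hP hφ hPa hN hZ hZ' hw hw' with h | ⟨rfl, rfl⟩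
  · exact reg_of_zero h
  · have l : Λ := Classical.arbitrary Λ
    exact (reg_P hq hP hN (R l) hZ hZ' (fun i hi => hw l i (by simpa using hi))
      (fun i hi => hw' l i (by simpa using hi))).shift m

lemma pure_faithful (hq : ∀ e : 𝟙_ C ⟶ 𝟙_ C, ∃ a : ℚ, e = a • 𝟙 _) (hP : ChowMotives P)
    (hφ : FrobeniusWeights P R φ) (hPa : Parshin P) (hN : RationalIsNumerical P) (l : Λ) (X Y : C)
    (hX : Pure P R X) (hY : Pure P R Y) (f : X ⟶ Y) (hf : ∀ i : ℤ, (R l).H.map (f⟦i⟧') = 0) :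
    f = 0 := by
  obtain ⟨Z, m, w, hZ, hw, ⟨e⟩⟩ := hX
  obtain ⟨Z', m', w', hZ', hw', ⟨e'⟩⟩ := hY
  have h0 : e.inv ≫ f ≫ e'.hom = 0 := by
    rcases pure_pair (m := m) (m' := m') hq hP hφ hPa hN hZ hZ' hw hw' with h | ⟨rfl, rfl⟩
    · exact h _
    · obtain ⟨g, hg⟩ := (shiftFunctor C m).map_surjective (e.inv ≫ f ≫ e'.hom)
      rw [← hg]
      have h1 : g = 0 := by
        refine faithful_on (R' := R l) hq hP hN hZ hZ' g fun i => ?_
        have h2 : g⟦i⟧' = ((shiftFunctorAdd' C m (i - m) i (by ring)).app Z).hom ≫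
            (g⟦m⟧')⟦i - m⟧' ≫ ((shiftFunctorAdd' C m (i - m) i (by ring)).app Z').inv := by
          rw [← Category.assoc, Iso.eq_comp_inv]
          exact (shiftFunctorAdd' C m (i - m) i (by ring)).hom.naturality g
        rw [h2, hg]
        simp only [Functor.map_comp, hf, zero_comp, comp_zero]
      rw [h1, Functor.map_zero]
  rw [← cancel_mono e'.hom, ← cancel_epi e.inv, zero_comp, comp_zero, h0]

variable [IsIdempotentComplete C] [IsTriangulated C]

/-- Every object is a sum of summands of pure objects. -/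
lemma env_pure (hq : ∀ e : 𝟙_ C ⟶ 𝟙_ C, ∃ a : ℚ, e = a • 𝟙 _) (hP : ChowMotives P)
    (hφ : FrobeniusWeights P R φ) (hPa : Parshin P) (hN : RationalIsNumerical P) (X : C) :
    Env (Pure P R) X := by
  have l : Λ := Classical.arbitrary Λ
  refine env_top (P := P) (pure_reg hq hP hφ hPa hN) (fun X n hX => ?_) (fun X hX => ?_)
    hP.generates X
  · obtain ⟨Z, m, w, hZ, hw, ⟨e⟩⟩ := hX
    exact ⟨Z, m + n, w, hZ, hw, ⟨(shiftFunctor C n).mapIso e ≪≫
      ((shiftFunctorAdd C m n).app Z).symm⟩⟩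
  · obtain ⟨p, hp1, hp2⟩ := hφ.weights
    have hk : Kills R φ (p X) X := fun i l => hp2 X i l hX
    obtain ⟨s, hs⟩ := hk.prod l
    refine decompose (φ := φ) (p X) (fun i j hij => hp1 X X i j hX hX hij)
      (fun Y => Env (Pure P R) Y) (fun Y => P Y ∧ Kills R φ (p X) Y)
      (fun Y Z i r hir h => ⟨hP.summand Y Z i r hir h.1, h.2.retract i r hir⟩)
      (fun Y hY => Env.zero _ hY)
      (fun Y Y₁ Y₂ i₁ r₁ i₂ r₂ d h1 h2 => Env.deco _ _ _ _ _ _ _ d h1 h2)
      (fun Z i h hZ => Env.base _ ⟨Z, 0, i, h.1, h.2.inDegrees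
        (fun i j hij => hp1 X X i j hX hX hij) hZ, ⟨((shiftFunctorZero C ℤ).app Z).symm⟩⟩) s X
      ⟨hX, hk⟩ (faithful_on hq hP hN hX hX _ hs)

/-- If rational and numerical equivalence agree and Parshin's conjecture holds, all realisations are
faithful. -/
theorem faithful_of_numerical (hq : ∀ e : 𝟙_ C ⟶ 𝟙_ C, ∃ a : ℚ, e = a • 𝟙 _)
    (hP : ChowMotives P) (hφ : FrobeniusWeights P R φ) (hPa : Parshin P)
    (hN : RationalIsNumerical P) (l : Λ) : Faithful (R l) := by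
  intro X Y f hf
  refine zero_env (B := Pure P R) (F := fun {X Y} f => ∀ i : ℤ, (R l).H.map (f⟦i⟧') = 0)
    (pure_faithful hq hP hφ hPa hN l) (fun a f h i => ?_) (fun f a h i => ?_)
    (env_pure hq hP hφ hPa hN X) (env_pure hq hP hφ hPa hN Y) f hf
  · rw [Functor.map_comp, Functor.map_comp, h, comp_zero]
  · rw [Functor.map_comp, Functor.map_comp, h, zero_comp]

end

end Pool.Agent.Helper812_FF
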