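import Pool.Agent.V1178.MT.Defs
import Pool.Agent.Y116.MT.Deg

/-!
# Chow motives and the Frobenius over a finite field: definitions
-/

set_option autoImplicit false

open CategoryTheory Limits MonoidalCategory Pretriangulated Triangulated

namespace Pool.Agent.Helper812_FF

open Pool.Agent.Y116.MT

universe v u w

section

variable {C : Type u} [Category.{v} C] [Preadditive C] [HasZeroObject C] [HasShift C ℤ]
  [∀ n : ℤ, (shiftFunctor C n).Additive] [Pretriangulated C] [MonoidalCategory C]
  [SymmetricCategory C] [TensorTriangulated C]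

/-- The class `P` of objects has the properties of the class of Chow motives (the direct summands
of the motives `M(X)(m)[2m]` of the smooth projective varieties `X`) in a category of motives over
a field: it contains the unit and is closed under tensor products, duals, direct sums and direct
summands, it generates the category as a thick triangulated subcategory, and there are no non zero
morphisms from the unit to `X⟦n⟧` for `X` in `P` and `n > 0`. -/
structure ChowMotives [RightRigidCategory C] (P : ObjectProperty C) : Prop where
  unit : P (𝟙_ C)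
  tensor (X Y : C) : P X → P Y → P (X ⊗ Y)
  dual (X : C) : P X → P (Xᘁ : C)
  sum (X Y : C) : P X → P Y → P (X ⊞ Y)
  summand (X Y : C) (i : X ⟶ Y) (r : Y ⟶ X) : i ≫ r = 𝟙 X → P Y → P X
  orthogonal (X : C) : P X → ∀ n : ℤ, 0 < n → ∀ f : 𝟙_ C ⟶ X⟦n⟧, f = 0
  generates : P.IsClassicalTriangulatedGenerator

/-- The value of the polynomial `p` at the endomorphism `f`. -/
noncomputable def ev [Linear ℚ C] {X : C} (f : X ⟶ X) (p : Polynomial ℚ) : X ⟶ X :=
  Polynomial.aeval (End.of f) p

/-- The endomorphism `φ` of the identity functor has the properties of the Frobenius of a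
category of motives over a finite field: it commutes with the shifts, and there are polynomials
`p X i` with rational coefficients (the characteristic polynomials of the Frobenius on `H^i(X)`) with
`p X i (φ) = 0` on `H^i(X)`, for all realisations, such that `p X i` and `p Y j` are coprime for
`i ≠ j`. -/
structure FrobeniusWeights [Linear ℚ C] (P : ObjectProperty C) {Λ : Type*} {E : Λ → Type w}
    [∀ l, Field (E l)] (R : ∀ l, Realisation C (E l)) (φ : 𝟭 C ⟶ 𝟭 C) : Prop where
  shift (X : C) (n : ℤ) : φ.app (X⟦n⟧) = (φ.app X)⟦n⟧'
  weights : ∃ p : C → ℤ → Polynomial ℚ,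
    (∀ (X Y : C) (i j : ℤ), P X → P Y → i ≠ j → IsCoprime (p X i) (p Y j)) ∧
    ∀ (X : C) (i : ℤ) (l : Λ), P X → (R l).H.map ((ev (φ.app X) (p X i))⟦i⟧') = 0

/-- Parshin's conjecture: the motivic cohomology `Hom(𝟙, X⟦n⟧)` of the Chow motives `X` vanishes
in negative degrees `n`, so that `CH^r(X, m) ⊗ ℚ = 0` for smooth projective `X` and `m > 0`. -/
def Parshin (P : ObjectProperty C) : Prop :=
  ∀ X : C, P X → ∀ n : ℤ, n < 0 → ∀ f : 𝟙_ C ⟶ X⟦n⟧, f = 0

/-- Rational and numerical equivalence agree (Beilinson's conjecture): for every non zero cycle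
class `s` on a Chow motive `X` there is a cycle class `r` of the complementary dimension such that the
intersection number of `s` and `r` is not zero. -/
def RationalIsNumerical (P : ObjectProperty C) : Prop :=
  ∀ X : C, P X → ∀ s : 𝟙_ C ⟶ X, s ≠ 0 → ∃ r : X ⟶ 𝟙_ C, s ≫ r ≠ 0

/-- The realisation `R` is faithful. -/
def Faithful {E : Type w} [Field E] (R : Realisation C E) : Prop :=
  ∀ (X Y : C) (f : X ⟶ Y), (∀ i : ℤ, R.H.map (f⟦i⟧') = 0) → f = 0

end

end Pool.Agent.Helper812_FF
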