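import Pool.Agent.Helper812_FF.Frob

/-!
# Duals of shifts
-/

set_option autoImplicit false
set_option linter.unusedSectionVars false
set_option linter.unusedSimpArgs false
set_option backward.isDefEq.respectTransparency false
set_option backward.defeqAttrib.useBackward true

open CategoryTheory Limits MonoidalCategory Pretriangulated Triangulated

namespace Pool.Agent.Helper812_FF

open Pool.Agent.Y116.MT Pool.Agent.V1178.MT Pool.Agent.Helper812_LT Pool.Agent.Helper812_MT

universe v u w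

section

variable {C : Type u} [Category.{v} C] [MonoidalCategory C] [SymmetricCategory C]
  [RightRigidCategory C]

/-- The dual of an invertible object. -/
noncomputable def invDual {L L' : C} (e : L ⊗ L' ≅ 𝟙_ C) : (Lᘁ : C) ≅ L' := by
  let η : 𝟭 C ≅ tensorRight L ⋙ tensorRight L' :=
    (NatIso.ofComponents (fun X => α_ X L L' ≪≫ whiskerLeftIso X e ≪≫ ρ_ X) (by
      intro X Y f
      simp only [Functor.comp_map, Iso.trans_hom, whiskerLeftIso_hom,
        Functor.id_map, Category.assoc]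
      change (f ▷ _) ▷ _ ≫ _ = _
      rw [associator_naturality_left_assoc, ← whisker_exchange_assoc]
      exact congrArg (fun k => (α_ X L L').hom ≫ X ◁ e.hom ≫ k) (rightUnitor_naturality f))).symm
  let ε : tensorRight L' ⋙ tensorRight L ≅ 𝟭 C :=
    NatIso.ofComponents (fun X => α_ X L' L ≪≫ whiskerLeftIso X (β_ L' L ≪≫ e) ≪≫ ρ_ X) (by
      intro X Y f
      simp only [Functor.comp_map, Iso.trans_hom, whiskerLeftIso_hom,
        Functor.id_map, Category.assoc]
      change (f ▷ _) ▷ _ ≫ _ = _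
      rw [associator_naturality_left_assoc, ← whisker_exchange_assoc]
      exact congrArg (fun k => (α_ X L' L).hom ≫ X ◁ ((β_ L' L).hom ≫ e.hom) ≫ k)
        (rightUnitor_naturality f))
  let E : C ≌ C := CategoryTheory.Equivalence.mk (tensorRight L) (tensorRight L') η ε
  let a := (tensorRightAdjunction L Lᘁ).rightAdjointUniq E.toAdjunction
  exact (λ_ _).symm ≪≫ a.app (𝟙_ C) ≪≫ λ_ _

/-- Tensoring with an invertible object does not change the internal endomorphisms. -/
noncomputable def endTwist {L L' : C} (e : L ⊗ L' ≅ 𝟙_ C) {Z Q : C} (i : Q ≅ Z ⊗ L) :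
    Q ⊗ (Qᘁ : C) ≅ Z ⊗ (Zᘁ : C) :=
  (i ⊗ᵢ rightDualIso inferInstance (exactPairingCongrLeft (Y := (Lᘁ ⊗ Zᘁ : C)) i)) ≪≫
    α_ Z L (Lᘁ ⊗ Zᘁ) ≪≫ whiskerLeftIso Z ((α_ L Lᘁ Zᘁ).symm ≪≫
      whiskerRightIso (whiskerLeftIso L (invDual e) ≪≫ e) _ ≪≫ λ_ _)

end

section

variable {C : Type u} [Category.{v} C] [Preadditive C] [HasZeroObject C] [HasShift C ℤ]
  [∀ n : ℤ, (shiftFunctor C n).Additive] [Pretriangulated C] [MonoidalCategory C]
  [SymmetricCategory C] [TensorTriangulated C] [RightRigidCategory C] [MonoidalPreadditive C]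

/-- The internal endomorphisms of a shift. -/
noncomputable def endShift (Z : C) (n : ℤ) : Z⟦n⟧ ⊗ ((Z⟦n⟧)ᘁ : C) ≅ Z ⊗ (Zᘁ : C) :=
  endTwist (shiftTensorIso (𝟙_ C) (𝟙_ C) n ≪≫ λ_ _) (tensorUnitShift Z n).symm

/-- Morphisms into a shift vanish if the corresponding morphisms from the unit do. -/
lemma zero_of_unit {X Y : C} (n : ℤ) (h : ∀ g : 𝟙_ C ⟶ (Y ⊗ (Xᘁ : C))⟦n⟧, g = 0)
    (f : X ⟶ Y⟦n⟧) : f = 0 := by
  apply eq_zero_of_nm
  rw [← cancel_mono (lShift Y Xᘁ n).hom, zero_comp]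
  exact h _

/-- Morphisms into a shift of the unit. -/
lemma zero_of_unit' {X : C} (n : ℤ) (h : ∀ g : 𝟙_ C ⟶ (Xᘁ : C)⟦n⟧, g = 0)
    (f : X ⟶ (𝟙_ C)⟦n⟧) : f = 0 := by
  refine zero_of_unit n (fun g => ?_) f
  rw [← cancel_mono ((shiftFunctor C n).map (λ_ (Xᘁ : C)).hom), zero_comp]
  exact h _

end

end Pool.Agent.Helper812_FF
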