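import Pool.Agent.Helper812_FF.Rat
import Pool.Agent.Helper812_LT.Conv

/-!
# A faithful realisation defines a motivic t-structure
-/

set_option autoImplicit false
set_option linter.unusedSectionVars false
set_option linter.unusedSimpArgs false
set_option backward.isDefEq.respectTransparency false
set_option backward.defeqAttrib.useBackward true

open CategoryTheory Limits MonoidalCategory Pretriangulated Triangulated ZeroObject

namespace Pool.Agent.Helper812_FF

open Pool.Agent.Y116.MT Pool.Agent.V1178.MT Pool.Agent.Helper812_LT Pool.Agent.Helper812_MT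
open Functor.LaxMonoidal

universe v u w

section

variable {C : Type u} [Category.{v} C] [Preadditive C]

lemma Deco.zero12 {X X₁ X₂ : C} {i₁ : X₁ ⟶ X} {r₁ : X ⟶ X₁} {i₂ : X₂ ⟶ X} {r₂ : X ⟶ X₂}
    (d : Deco i₁ r₁ i₂ r₂) : i₁ ≫ r₂ = 0 := by
  have h1 : i₁ ≫ (r₁ ≫ i₁ + r₂ ≫ i₂) = i₁ := by rw [d.sum, Category.comp_id]
  rw [Preadditive.comp_add, ← Category.assoc, d.one, Category.id_comp, add_eq_left] at h1
  have h2 : (i₁ ≫ r₂ ≫ i₂) ≫ r₂ = 0 := by rw [h1, zero_comp]
  rwa [Category.assoc, Category.assoc, d.two, Category.comp_id] at h2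

lemma Deco.symm {X X₁ X₂ : C} {i₁ : X₁ ⟶ X} {r₁ : X ⟶ X₁} {i₂ : X₂ ⟶ X} {r₂ : X ⟶ X₂}
    (d : Deco i₁ r₁ i₂ r₂) : Deco i₂ r₂ i₁ r₁ := ⟨d.two, d.one, by rw [add_comm, d.sum]⟩

/-- The direct sum decomposition as an isomorphism. -/
noncomputable def Deco.iso [HasBinaryBiproducts C] {X X₁ X₂ : C} {i₁ : X₁ ⟶ X} {r₁ : X ⟶ X₁}
    {i₂ : X₂ ⟶ X} {r₂ : X ⟶ X₂} (d : Deco i₁ r₁ i₂ r₂) : X₁ ⊞ X₂ ≅ X where
  hom := biprod.desc i₁ i₂
  inv := biprod.lift r₁ r₂
  hom_inv_id := by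
    apply biprod.hom_ext'
    · apply biprod.hom_ext
      · simp [d.one]
      · simp [d.zero12]
    · apply biprod.hom_ext
      · simp [d.symm.zero12]
      · simp [d.two]
  inv_hom_id := by rw [biprod.lift_desc, d.sum]

end

section

variable {C : Type u} [Category.{v} C] [Preadditive C] [HasZeroObject C] [HasShift C ℤ]
  [∀ n : ℤ, (shiftFunctor C n).Additive] [Pretriangulated C] [MonoidalCategory C]
  [SymmetricCategory C] [TensorTriangulated C] {Λ : Type*} {E : Λ → Type w} [∀ l, Field (E l)]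
  {R : ∀ l, Realisation C (E l)}

lemma ext_of_deco {X X₁ X₂ : C} {i₁ : X₁ ⟶ X} {r₁ : X ⟶ X₁} {i₂ : X₂ ⟶ X} {r₂ : X ⟶ X₂}
    (d : Deco i₁ r₁ i₂ r₂) {s s' : Set ℤ} (h1 : InDegrees R s X₁) (h2 : InDegrees R s' X₂) :
    IsExtension R s s' X :=
  IsExtension.iso ⟨X₁, X₂, _, _, _, binaryBiproductTriangle_distinguished X₁ X₂, h1, h2⟩ d.iso

/-- The fibre of a regular morphism. -/
theorem fibre_of_reg [IsIdempotentComplete C] {X A B : C} {u : X ⟶ A} {f : A ⟶ B}
    {d : B ⟶ X⟦(1 : ℤ)⟧} (hT : Triangle.mk u f d ∈ distTriang C) (g : B ⟶ A)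
    (hg : f ≫ g ≫ f = f) {s s' : Set ℤ} (hA : InDegrees R s A)
    (hB : InDegrees R s' (B⟦(-1 : ℤ)⟧)) : IsExtension R s s' X := by
  obtain ⟨t, ht⟩ := ce2 hT (𝟙 A - f ≫ g) (by
    rw [Preadditive.sub_comp, Category.id_comp, Category.assoc, hg, sub_self])
  have h1 : u ≫ t ≫ u = u := by
    rw [← ht, Preadditive.comp_sub, Category.comp_id, ← Category.assoc u f, comp12 hT, zero_comp,
      sub_zero]
  have hi : (u ≫ t) ≫ (u ≫ t) = u ≫ t := by
    rw [Category.assoc, ← Category.assoc t, ← Category.assoc u (t ≫ u), h1]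
  have hi' : (𝟙 X - u ≫ t) ≫ (𝟙 X - u ≫ t) = 𝟙 X - u ≫ t := by
    rw [Preadditive.sub_comp, Category.id_comp, Preadditive.comp_sub, Category.comp_id, hi,
      sub_self, sub_zero]
  obtain ⟨X₁, i₁, r₁, e₁, e₁'⟩ := IsIdempotentComplete.idempotents_split X _ hi
  obtain ⟨X₂, i₂, r₂, e₂, e₂'⟩ := IsIdempotentComplete.idempotents_split X _ hi'
  have d' : Deco i₁ r₁ i₂ r₂ := ⟨e₁, e₂, by rw [e₁', e₂']; abel⟩
  refine ext_of_deco d' (InDegrees.retract (i₁ ≫ u) (t ≫ r₁) ?_ hA) ?_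
  · have h2 : i₁ ≫ u ≫ t = i₁ := by rw [← e₁', ← Category.assoc, e₁, Category.id_comp]
    rw [Category.assoc, ← Category.assoc u, ← Category.assoc i₁, h2, e₁]
  · have h2 : i₂ ≫ u = 0 := by
      have h3 : i₂ = i₂ ≫ (𝟙 X - u ≫ t) := by rw [← e₂', ← Category.assoc, e₂, Category.id_comp]
      rw [h3, Category.assoc, Preadditive.sub_comp, Category.id_comp, Category.assoc, h1, sub_self,
        comp_zero]
    obtain ⟨j, hj⟩ := Triangle.coyoneda_exact₂ _ (inv_rot_of_distTriang _ hT) i₂ h2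
    refine InDegrees.retract j ((Triangle.mk u f d).invRotate.mor₁ ≫ r₂) ?_ hB
    rw [← Category.assoc]
    exact (congrArg (· ≫ r₂) hj).symm.trans e₂

end

section

variable {C : Type u} [Category.{v} C] [Preadditive C] [HasZeroObject C] [HasShift C ℤ]
  [∀ n : ℤ, (shiftFunctor C n).Additive] [Pretriangulated C] [MonoidalCategory C]
  [SymmetricCategory C] [TensorTriangulated C] {E : Type w} [Field E] {R : Realisation C E}

lemma mono_unit {W : ModuleCat.{w} E} (g : R.H.obj ((𝟙_ C)⟦(0 : ℤ)⟧) ⟶ W) (hg : g ≠ 0) :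
    Mono g := by
  have h1 : Module.finrank E (R.H.obj ((𝟙_ C)⟦(0 : ℤ)⟧)) = 1 := by
    have h2 := tot_unit (R := R)
    rwa [tot_deg deg_unit] at h2
  have h2 : IsSimpleModule E (R.H.obj ((𝟙_ C)⟦(0 : ℤ)⟧)) := isSimpleModule_iff_finrank_eq_one.2 h1
  rcases LinearMap.injective_or_eq_zero g.hom with h | h
  · exact (ModuleCat.mono_iff_injective _).2 h
  · exact absurd (ModuleCat.hom_ext h) hg

/-- If the realisation is faithful, every non zero morphism from the unit splits. -/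
theorem split_of_faithful (hf : Faithful R) {M : C} (s : 𝟙_ C ⟶ M) (hs : s ≠ 0) :
    ∃ r : M ⟶ 𝟙_ C, s ≫ r = 𝟙 _ := by
  obtain ⟨Z, q, δ, hT⟩ := distinguished_cocone_triangle s
  have h0 : R.H.map (s⟦(0 : ℤ)⟧') ≠ 0 := by
    intro h
    apply hs
    apply hf
    intro i
    by_cases hi : i = 0
    · subst hi
      exact h
    · exact (deg_unit (R := R) i hi).eq_of_src _ _
  have h1 := mono_unit _ h0
  have h2 : δ = 0 := by
    apply hf
    intro i
    by_cases hi : i = -1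
    · subst hi
      have h3 : Mono (R.H.map (s⟦(1 : ℤ)⟧'⟦(-1 : ℤ)⟧')) := by
        have h4 : s⟦(1 : ℤ)⟧'⟦(-1 : ℤ)⟧' = ((shiftFunctorAdd' C (1 : ℤ) (-1) 0 (by simp)).app _).inv ≫
            s⟦(0 : ℤ)⟧' ≫ ((shiftFunctorAdd' C (1 : ℤ) (-1) 0 (by simp)).app _).hom := by
          have h5 := (shiftFunctorAdd' C (1 : ℤ) (-1) 0 (by simp)).hom.naturality s
          rw [Iso.eq_inv_comp]
          exact h5.symm
        rw [h4, Functor.map_comp, Functor.map_comp]
        infer_instance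
      rw [← cancel_mono (R.H.map (s⟦(1 : ℤ)⟧'⟦(-1 : ℤ)⟧')), zero_comp, ← Functor.map_comp,
        ← Functor.map_comp, comp31 hT, Functor.map_zero, Functor.map_zero]
    · exact ((deg_unit (R := R) (1 + i) (by omega)).of_iso
        (R.H.mapIso ((shiftFunctorAdd C (1 : ℤ) i).app (𝟙_ C)).symm)).eq_of_tgt _ _
  obtain ⟨r, hr⟩ := split3 hT h2
  exact ⟨r, hr⟩

lemma conservative_of_faithful (hf : Faithful R) : Conservative R := fun X hX =>
  (IsZero.iff_id_eq_zero X).2 (hf X X _ fun i => (hX i).eq_of_src _ _)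

end

section

variable {C : Type u} [Category.{v} C] [Preadditive C] [Linear ℚ C] [HasZeroObject C]
  [HasShift C ℤ] [∀ n : ℤ, (shiftFunctor C n).Additive] [Pretriangulated C] [MonoidalCategory C]
  [SymmetricCategory C] [TensorTriangulated C] [MonoidalPreadditive C] [RightRigidCategory C]
  [IsIdempotentComplete C] [IsTriangulated C]
  {Λ : Type*} {E : Λ → Type w} [∀ l, Field (E l)]
  {R : ∀ l, Realisation C (E l)} {P : ObjectProperty C} {φ : 𝟭 C ⟶ 𝟭 C}

lemma reg_of_faithful (hq : ∀ e : 𝟙_ C ⟶ 𝟙_ C, ∃ a : ℚ, e = a • 𝟙 _) {l : Λ}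
    (hf : Faithful (R l)) {A B : C} (hA : (R l).Deg A 0) (hB : (R l).Deg B 0) : Reg A B := by
  apply reg_of_end
  refine reg_end (R l) hq (fun i hi => ?_) (fun s hs => ?_)
  · exact hz2 (R l).H (binaryBiproductTriangle_distinguished A B) i (hA i hi) (hB i hi)
  · obtain ⟨r, hr⟩ := split_of_faithful hf s hs
    refine ⟨r, fun h => not_isZero_unit (R l) ((IsZero.iff_id_eq_zero _).2 ?_)⟩
    rw [← hr, h]

theorem fibresSeparate_of_faithful (hq : ∀ e : 𝟙_ C ⟶ 𝟙_ C, ∃ a : ℚ, e = a • 𝟙 _) {l : Λ}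
    (hf : Faithful (R l)) : FibresSeparate R := by
  intro X A B u f d m hT hm hA hB
  have hB' : InDegrees R {m + 1} (B⟦(-1 : ℤ)⟧) := hB.shift (-1) fun i hi => by
    simp only [Set.mem_singleton_iff] at hi ⊢
    omega
  rcases hm.eq_or_lt with rfl | hm
  · have h1 : (R l).Deg A 0 := fun i hi => hA l i (by simpa using hi)
    have h2 : (R l).Deg B 0 := fun i hi => hB l i (by simpa using hi)
    obtain ⟨g, hg⟩ := reg_of_faithful hq hf h1 h2 f
    exact fibre_of_reg hT g hg hA hB'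
  · have h1 : f = 0 := by
      apply hf
      intro i
      by_cases hi : i = 0
      · exact (hB l i (by
          simp only [Set.mem_singleton_iff]
          omega)).eq_of_tgt _ _
      · exact (hA l i (by simpa using hi)).eq_of_src _ _
    exact fibre_of_reg hT 0 (by rw [h1, zero_comp]) hA hB'

/-- The single degrees generate. -/
theorem singleDegreesGenerate (hP : ChowMotives P) (hφ : FrobeniusWeights P R φ) {l : Λ}
    (hf : ∀ X, P X → ∀ f : X ⟶ X, (∀ i : ℤ, (R l).H.map (f⟦i⟧') = 0) → f = 0) :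
    SingleDegreesGenerate R := by
  obtain ⟨p, hp1, hp2⟩ := hφ.weights
  let S : ObjectProperty C := fun X => ∃ n : ℤ, InDegrees R {n} X
  change S.IsClassicalTriangulatedGenerator
  have hne : S.Nonempty := ⟨⟨0, 0, inDegrees_of_isZero (isZero_zero C) _⟩⟩
  have h1 : P ≤ S.triangEnvelope := by
    intro X hX
    have hk : Kills R φ (p X) X := fun i l => hp2 X i l hX
    obtain ⟨s, hs⟩ := hk.prod l
    refine decompose (φ := φ) (p X) (fun i j hij => hp1 X X i j hX hX hij) S.triangEnvelope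
      (fun Y => P Y ∧ Kills R φ (p X) Y)
      (fun Y Z i r hir h => ⟨hP.summand Y Z i r hir h.1, h.2.retract i r hir⟩)
      (fun Y hY => S.le_triangEnvelope Y ⟨0, inDegrees_of_isZero hY _⟩)
      (fun Y Y₁ Y₂ i₁ r₁ i₂ r₂ d h1 h2 => ?_)
      (fun Z i h hZ => S.le_triangEnvelope Z ⟨i, h.2.inDegrees
        (fun i j hij => hp1 X X i j hX hX hij) hZ⟩) s X ⟨hX, hk⟩ (hf X hX _ hs)
    have h3 : S.triangEnvelope (Y₁ ⊞ Y₂) := ObjectProperty.ext_of_isTriangulatedClosed₂ _ _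
      (binaryBiproductTriangle_distinguished Y₁ Y₂) h1 h2
    exact S.triangEnvelope.prop_of_iso d.iso h3
  have h2 : P.triangEnvelope ≤ S.triangEnvelope := (ObjectProperty.triangEnvelope_le_iff _).2 h1
  rw [(ObjectProperty.isClassicalTriangulatedGenerator_iff _).1 hP.generates] at h2
  exact (ObjectProperty.isClassicalTriangulatedGenerator_iff _).2 (top_le_iff.1 h2)

theorem motivic_of_faithful (hq : ∀ e : 𝟙_ C ⟶ 𝟙_ C, ∃ a : ℚ, e = a • 𝟙 _)
    (hP : ChowMotives P) (hφ : FrobeniusWeights P R φ) {l : Λ} (hf : Faithful (R l)) :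
    ∃ t : TStructure C, IsMotivic t R := by
  have hc := conservative_of_faithful hf
  have h1 := lift_of_separate (fibresSeparate_of_faithful hq hf) hc
    (singleDegreesGenerate hP hφ fun X _ => hf X X)
  exact ⟨tStr hc h1, tStr_motivic hc h1⟩

end

end Pool.Agent.Helper812_FF
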