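import Pool.Agent.Helper812_FF.Poly
import Pool.Agent.Helper812_MT.Rigid

/-!
# Decomposition of Chow motives by the Frobenius
-/

set_option autoImplicit false
set_option linter.unusedSectionVars false
set_option linter.unusedSimpArgs false
set_option backward.isDefEq.respectTransparency false
set_option backward.defeqAttrib.useBackward true

open CategoryTheory Limits MonoidalCategory Pretriangulated Triangulated

namespace Pool.Agent.Helper812_FF

open Pool.Agent.Y116.MT Pool.Agent.V1178.MT Pool.Agent.Helper812_LT Pool.Agent.Helper812_MT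

universe v u w

section

variable {C : Type u} [Category.{v} C] [Preadditive C] [Linear ℚ C] {φ : 𝟭 C ⟶ 𝟭 C}

lemma ev_nat (φ : 𝟭 C ⟶ 𝟭 C) {X Y : C} (h : X ⟶ Y) (p : Polynomial ℚ) :
    ev (φ.app X) p ≫ h = h ≫ ev (φ.app Y) p :=
  ev_comm h (φ.naturality h).symm p

lemma ev_retract (φ : 𝟭 C ⟶ 𝟭 C) {X Y : C} (i : X ⟶ Y) (r : Y ⟶ X) (hir : i ≫ r = 𝟙 X)
    (p : Polynomial ℚ) : (ev (φ.app X) p : X ⟶ X) = i ≫ (ev (φ.app Y) p : Y ⟶ Y) ≫ r := by
  have h1 : (ev (φ.app X) p : X ⟶ X) ≫ i = i ≫ (ev (φ.app Y) p : Y ⟶ Y) := ev_nat φ i p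
  rw [← Category.assoc, ← h1, Category.assoc, hir]
  exact (Category.comp_id (obj := C) (X := X) (Y := X) _).symm

/-- A direct sum decomposition. -/
structure Deco {X X₁ X₂ : C} (i₁ : X₁ ⟶ X) (r₁ : X ⟶ X₁) (i₂ : X₂ ⟶ X) (r₂ : X ⟶ X₂) : Prop where
  one : i₁ ≫ r₁ = 𝟙 _
  two : i₂ ≫ r₂ = 𝟙 _
  sum : r₁ ≫ i₁ + r₂ ≫ i₂ = 𝟙 _

theorem decompose [HasZeroObject C] [IsIdempotentComplete C] (q : ℤ → Polynomial ℚ)
    (hq : ∀ i j, i ≠ j → IsCoprime (q i) (q j)) (D P : ObjectProperty C)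
    (hP : ∀ (X Y : C) (i : X ⟶ Y) (r : Y ⟶ X), i ≫ r = 𝟙 X → P Y → P X)
    (h0 : ∀ X, IsZero X → D X)
    (h1 : ∀ (X X₁ X₂ : C) (i₁ : X₁ ⟶ X) (r₁ : X ⟶ X₁) (i₂ : X₂ ⟶ X) (r₂ : X ⟶ X₂),
      Deco i₁ r₁ i₂ r₂ → D X₁ → D X₂ → D X)
    (hb : ∀ (Z : C) (i : ℤ), P Z → ev (φ.app Z) (q i) = 0 → D Z) (s : Finset ℤ) :
    ∀ X : C, P X → ev (φ.app X) (∏ i ∈ s, q i) = 0 → D X := by
  classical
  induction s using Finset.induction_on with
  | empty =>
    intro X _ hX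
    rw [Finset.prod_empty, ev_one] at hX
    exact h0 X ((IsZero.iff_id_eq_zero X).2 hX)
  | insert i s hi ih =>
    intro X hX h
    rw [Finset.prod_insert hi] at h
    have hc : IsCoprime (q i) (∏ j ∈ s, q j) :=
      IsCoprime.prod_right fun j hj => hq i j (by
        rintro rfl
        exact hi hj)
    obtain ⟨X₁, X₂, i₁, r₁, i₂, r₂, e₁, e₂, e, k₁, k₂⟩ := split_ev _ hc h
    refine h1 X X₁ X₂ i₁ r₁ i₂ r₂ ⟨e₁, e₂, e⟩ (hb X₁ i (hP _ _ i₁ r₁ e₁ hX) ?_)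
      (ih X₂ (hP _ _ i₂ r₂ e₂ hX) ?_)
    · refine (ev_retract φ i₁ r₁ e₁ (q i)).trans ?_
      rw [← Category.assoc]
      exact (congrArg (· ≫ r₁) k₁).trans zero_comp
    · refine (ev_retract φ i₂ r₂ e₂ _).trans ?_
      rw [← Category.assoc]
      exact (congrArg (· ≫ r₂) k₂).trans zero_comp

end

section

variable {C : Type u} [Category.{v} C] [Preadditive C] [Linear ℚ C] [HasZeroObject C]
  [HasShift C ℤ] [∀ n : ℤ, (shiftFunctor C n).Additive] [Pretriangulated C] [MonoidalCategory C]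
  [SymmetricCategory C] [TensorTriangulated C] {Λ : Type*} {E : Λ → Type w} [∀ l, Field (E l)]
  {R : ∀ l, Realisation C (E l)} {φ : 𝟭 C ⟶ 𝟭 C}

lemma ev_shift (hs : ∀ (X : C) (n : ℤ), φ.app (X⟦n⟧) = (φ.app X)⟦n⟧') (X : C) (n : ℤ)
    (p : Polynomial ℚ) : (ev (φ.app X) p)⟦n⟧' = ev (φ.app (X⟦n⟧)) p := by
  rw [hs]
  exact ev_map (shiftFunctor C n) _ p

/-- Morphisms between objects with coprime Frobenius polynomials vanish. -/
lemma hom_shift_zero (hs : ∀ (X : C) (n : ℤ), φ.app (X⟦n⟧) = (φ.app X)⟦n⟧') {X Y : C}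
    {p q : Polynomial ℚ} (hp : ev (φ.app X) p = 0) (hq : ev (φ.app Y) q = 0)
    (hpq : IsCoprime p q) (n : ℤ) (f : X ⟶ Y⟦n⟧) : f = 0 := by
  refine hom_zero f (φ.naturality f).symm hp (q := q) ?_ hpq
  have h1 := ev_shift hs Y n q
  rw [hq, Functor.map_zero] at h1
  exact h1.symm

/-- The cohomology in degree `i` vanishes if it is killed by two coprime polynomials. -/
lemma isZero_H {E' : Type w} [Field E'] {R' : Realisation C E'} {X : C} {i : ℤ} {f : X ⟶ X}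
    {a b : Polynomial ℚ} (hab : IsCoprime a b) (ha : R'.H.map ((ev f a)⟦i⟧') = 0)
    (hb : R'.H.map ((ev f b)⟦i⟧') = 0) : IsZero (R'.H.obj (X⟦i⟧)) := by
  obtain ⟨c, d, hcd⟩ := hab
  have h1 : R'.H.map ((ev f (c * a + d * b))⟦i⟧') = 𝟙 _ := by
    rw [hcd, ev_one, CategoryTheory.Functor.map_id, CategoryTheory.Functor.map_id]
  rw [IsZero.iff_id_eq_zero, ← h1, ev_add, ev_mul, ev_mul, Functor.map_add, Functor.map_comp,
    Functor.map_comp, Functor.map_add, Functor.map_comp, Functor.map_comp, ha, hb, comp_zero,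
    comp_zero, add_zero]

/-- The polynomials `q i` annihilate the cohomology of degree `i`. -/
def Kills (R : ∀ l, Realisation C (E l)) (φ : 𝟭 C ⟶ 𝟭 C) (q : ℤ → Polynomial ℚ) : ObjectProperty C :=
  fun X => ∀ (i : ℤ) (l : Λ), (R l).H.map ((ev (φ.app X) (q i))⟦i⟧') = 0

lemma Kills.retract {q : ℤ → Polynomial ℚ} {X Y : C} (i : X ⟶ Y) (r : Y ⟶ X) (hir : i ≫ r = 𝟙 X)
    (h : Kills R φ q Y) : Kills R φ q X := by
  intro n l
  have h1 := ev_retract φ i r hir (q n)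
  change (R l).H.map ((ev (φ.app X) (q n) : X ⟶ X)⟦n⟧') = 0
  rw [h1, Functor.map_comp, Functor.map_comp, Functor.map_comp, Functor.map_comp, h n l,
    zero_comp, comp_zero]

lemma Kills.inDegrees {q : ℤ → Polynomial ℚ} (hq : ∀ i j, i ≠ j → IsCoprime (q i) (q j))
    {X : C} (h : Kills R φ q X) {i : ℤ} (hi : ev (φ.app X) (q i) = 0) : InDegrees R {i} X := by
  intro l j hj
  refine isZero_H (hq i j fun h => hj (by simp [h])) ?_ (h j l)
  rw [hi, Functor.map_zero, Functor.map_zero]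

/-- The product of finitely many of the polynomials has zero realisation. -/
lemma Kills.prod {q : ℤ → Polynomial ℚ} {X : C} (h : Kills R φ q X) (l : Λ) : ∃ s : Finset ℤ,
    ∀ i : ℤ, (R l).H.map ((ev (φ.app X) (∏ j ∈ s, q j))⟦i⟧') = 0 := by
  classical
  obtain ⟨N, hN⟩ := (R l).bounded X
  refine ⟨Finset.Icc (-(N : ℤ)) N, fun i => ?_⟩
  by_cases hi : i ∈ Finset.Icc (-(N : ℤ)) N
  · rw [← Finset.mul_prod_erase _ _ hi, ev_mul, Functor.map_comp, Functor.map_comp, h i l,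
      zero_comp]
  · exact (hN i (by
      rw [Finset.mem_Icc] at hi
      omega)).eq_of_src _ _

end

end Pool.Agent.Helper812_FF
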