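import Pool.Agent.Helper812_FF.Defs
import Pool.Agent.Helper812_LT.Build

/-!
# Polynomials in the Frobenius
-/

set_option autoImplicit false
set_option linter.unusedSectionVars false
set_option linter.unusedSimpArgs false
set_option backward.isDefEq.respectTransparency false
set_option backward.defeqAttrib.useBackward true

open CategoryTheory Limits MonoidalCategory Pretriangulated Triangulated

namespace Pool.Agent.Helper812_FF

open Pool.Agent.Y116.MT Pool.Agent.V1178.MT Pool.Agent.Helper812_LT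

universe v u w

section

variable {C : Type u} [Category.{v} C] [Preadditive C] [Linear ℚ C]

lemma ev_mul {X : C} (f : X ⟶ X) (p q : Polynomial ℚ) : ev f (p * q) = ev f p ≫ ev f q := by
  rw [mul_comm, ev, map_mul]
  rfl

lemma ev_add {X : C} (f : X ⟶ X) (p q : Polynomial ℚ) : ev f (p + q) = ev f p + ev f q := by
  rw [ev, map_add]
  rfl

lemma ev_one {X : C} (f : X ⟶ X) : ev f 1 = 𝟙 X := by
  rw [ev, map_one]
  rfl

lemma ev_comm {X Y : C} {f : X ⟶ X} {g : Y ⟶ Y} (h : X ⟶ Y) (hh : f ≫ h = h ≫ g)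
    (p : Polynomial ℚ) : ev f p ≫ h = h ≫ ev g p := by
  induction p using Polynomial.induction_on' with
  | add p q hp hq => rw [ev_add, ev_add, Preadditive.add_comp, Preadditive.comp_add, hp, hq]
  | monomial n a =>
    have h1 : ∀ m : ℕ, (End.of f ^ m : X ⟶ X) ≫ h = h ≫ (End.of g ^ m : Y ⟶ Y) := by
      intro m
      induction m with
      | zero =>
        rw [pow_zero, pow_zero]
        change 𝟙 _ ≫ h = h ≫ 𝟙 _
        simp
      | succ m ih =>
        rw [pow_succ, pow_succ]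
        change (f ≫ (End.of f ^ m : X ⟶ X)) ≫ h = h ≫ g ≫ (End.of g ^ m : Y ⟶ Y)
        rw [Category.assoc, ih, ← Category.assoc, hh, Category.assoc]
    rw [ev, ev, Polynomial.aeval_monomial, Polynomial.aeval_monomial, ← Algebra.smul_def,
      ← Algebra.smul_def]
    change (a • (End.of f ^ n : X ⟶ X)) ≫ h = h ≫ (a • (End.of g ^ n : Y ⟶ Y))
    rw [Linear.smul_comp, Linear.comp_smul, h1]

lemma ev_map {D : Type*} [Category* D] [Preadditive D] [Linear ℚ D] (F : C ⥤ D) [F.Additive]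
    {X : C} (f : X ⟶ X) (p : Polynomial ℚ) : F.map (ev f p) = ev (F.map f) p := by
  induction p using Polynomial.induction_on' with
  | add p q hp hq => rw [ev_add, ev_add, Functor.map_add, hp, hq]
  | monomial n a =>
    have h1 : ∀ m : ℕ, F.map (End.of f ^ m : X ⟶ X) = (End.of (F.map f) ^ m : F.obj X ⟶ F.obj X) := by
      intro m
      induction m with
      | zero =>
        rw [pow_zero, pow_zero]
        exact F.map_id _
      | succ m ih =>
        rw [pow_succ, pow_succ]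
        change F.map (f ≫ (End.of f ^ m : X ⟶ X)) = F.map f ≫ (End.of (F.map f) ^ m : F.obj X ⟶ F.obj X)
        rw [Functor.map_comp, ih]
    rw [ev, ev, Polynomial.aeval_monomial, Polynomial.aeval_monomial, ← Algebra.smul_def,
      ← Algebra.smul_def]
    change F.map (a • (End.of f ^ n : X ⟶ X)) = (a • (End.of (F.map f) ^ n : F.obj X ⟶ F.obj X))
    rw [Functor.map_smul, h1]

/-- If the polynomials `p` and `q` are coprime and `p(f) = 0`, `q(g) = 0`, every morphism which
intertwines `f` and `g` is zero. -/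
lemma hom_zero {X Y : C} {f : X ⟶ X} {g : Y ⟶ Y} (h : X ⟶ Y) (hh : f ≫ h = h ≫ g)
    {p q : Polynomial ℚ} (hp : ev f p = 0) (hq : ev g q = 0) (hpq : IsCoprime p q) : h = 0 := by
  obtain ⟨a, b, hab⟩ := hpq
  have h1 : ev f (a * p + b * q) ≫ h = h := by rw [hab, ev_one, Category.id_comp]
  rw [← h1, ev_add, ev_mul, hp, comp_zero, zero_add, ev_comm h hh, ev_mul, hq, comp_zero,
    comp_zero]

/-- Splitting of an object for two coprime polynomials. -/
lemma split_ev [IsIdempotentComplete C] {X : C} (f : X ⟶ X) {a b : Polynomial ℚ}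
    (hab : IsCoprime a b) (h : ev f (a * b) = 0) :
    ∃ (X₁ X₂ : C) (i₁ : X₁ ⟶ X) (r₁ : X ⟶ X₁) (i₂ : X₂ ⟶ X) (r₂ : X ⟶ X₂),
      i₁ ≫ r₁ = 𝟙 _ ∧ i₂ ≫ r₂ = 𝟙 _ ∧ r₁ ≫ i₁ + r₂ ≫ i₂ = 𝟙 _ ∧ i₁ ≫ ev f a = 0 ∧
        i₂ ≫ ev f b = 0 := by
  obtain ⟨c, d, hcd⟩ := hab
  have h1 : ev f (d * b) + ev f (c * a) = 𝟙 X := by
    rw [← ev_add, add_comm (d * b), hcd, ev_one]
  have h2 : ev f (d * b) ≫ ev f (c * a) = 0 := by
    rw [← ev_mul, show d * b * (c * a) = c * d * (a * b) by ring, ev_mul, h, comp_zero]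
  have h3 : ev f (c * a) ≫ ev f (d * b) = 0 := by
    rw [← ev_mul, show c * a * (d * b) = c * d * (a * b) by ring, ev_mul, h, comp_zero]
  have i1 : ev f (d * b) ≫ ev f (d * b) = ev f (d * b) := by
    have h4 : ev f (d * b) ≫ (ev f (d * b) + ev f (c * a)) = ev f (d * b) := by
      rw [h1, Category.comp_id]
    rw [Preadditive.comp_add, h2, add_zero] at h4
    exact h4
  have i2 : ev f (c * a) ≫ ev f (c * a) = ev f (c * a) := by
    have h4 : ev f (c * a) ≫ (ev f (d * b) + ev f (c * a)) = ev f (c * a) := by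
      rw [h1, Category.comp_id]
    rw [Preadditive.comp_add, h3, zero_add] at h4
    exact h4
  obtain ⟨X₁, i₁, r₁, e₁, e₁'⟩ := IsIdempotentComplete.idempotents_split X _ i1
  obtain ⟨X₂, i₂, r₂, e₂, e₂'⟩ := IsIdempotentComplete.idempotents_split X _ i2
  refine ⟨X₁, X₂, i₁, r₁, i₂, r₂, e₁, e₂, by rw [e₁', e₂', h1], ?_, ?_⟩
  · have h4 : i₁ = i₁ ≫ ev f (d * b) := by
      rw [← e₁', ← Category.assoc, e₁, Category.id_comp]
    rw [h4, Category.assoc, ← ev_mul, mul_assoc, mul_comm b a, ev_mul, h, comp_zero, comp_zero]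
  · have h4 : i₂ = i₂ ≫ ev f (c * a) := by
      rw [← e₂', ← Category.assoc, e₂, Category.id_comp]
    rw [h4, Category.assoc, ← ev_mul, mul_assoc, ev_mul, h, comp_zero, comp_zero]

end

end Pool.Agent.Helper812_FF
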