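import Pool.Agent.Helper812_FF.Reg
import Pool.Agent.Y116.MT.Trace

/-!
# Regularity of the endomorphisms of an object in degree zero
-/

set_option autoImplicit false
set_option linter.unusedSectionVars false
set_option linter.unusedSimpArgs false
set_option backward.isDefEq.respectTransparency false
set_option backward.defeqAttrib.useBackward true

open CategoryTheory Limits MonoidalCategory Pretriangulated Triangulated

namespace Pool.Agent.Helper812_FF

open Pool.Agent.Y116.MT Pool.Agent.V1178.MT Pool.Agent.Helper812_LT Pool.Agent.Helper812_MT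
open Functor.LaxMonoidal

universe v u w

section

variable {C : Type u} [Category.{v} C] [Preadditive C] [Linear ℚ C] [HasZeroObject C]
  [HasShift C ℤ] [∀ n : ℤ, (shiftFunctor C n).Additive] [Pretriangulated C] [MonoidalCategory C]
  [SymmetricCategory C] [TensorTriangulated C] {E : Type w} [Field E] (R : Realisation C E)

include R in
/-- The coefficients of a realisation of a `ℚ`-linear category have characteristic zero. -/
lemma charZero : CharZero E := by
  refine charZero_of_inj_zero fun n h0 => ?_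
  by_contra hn
  apply not_isZero_H_unit R
  rw [IsZero.iff_id_eq_zero]
  have h1 : (n : ℤ) • ((n : ℚ)⁻¹ • 𝟙 (𝟙_ C)) = 𝟙 (𝟙_ C) := by
    rw [← Int.cast_smul_eq_zsmul ℚ, smul_smul]
    push_cast
    rw [mul_inv_cancel₀ (by exact_mod_cast hn), one_smul]
  rw [← CategoryTheory.Functor.map_id, ← h1, Functor.map_zsmul]
  ext x
  generalize R.H.map ((n : ℚ)⁻¹ • 𝟙 (𝟙_ C)) = g
  have h2 : (((n : ℤ) • g : R.H.obj (𝟙_ C) ⟶ R.H.obj (𝟙_ C)).hom) x = (n : E) • (g.hom x) := by
    rw [ModuleCat.hom_zsmul, LinearMap.smul_apply, natCast_zsmul, Nat.cast_smul_eq_nsmul]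
  rw [h2, h0, zero_smul]
  rfl

variable [RightRigidCategory C] [MonoidalPreadditive C]

lemma tr_add {X : C} (a b : X ⟶ X) : tr (a + b) = tr a + tr b := by
  simp only [tr, MonoidalPreadditive.add_whiskerRight, Preadditive.add_comp, Preadditive.comp_add]

/-- The endomorphisms of an object `Q` in degree zero are regular if the morphisms from the unit to
`Q ⊗ Qᘁ` are detected by the morphisms to the unit. -/
theorem reg_end (hq : ∀ e : 𝟙_ C ⟶ 𝟙_ C, ∃ a : ℚ, e = a • 𝟙 _) {Q : C} (hQ : R.Deg Q 0)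
    (hN : ∀ s : 𝟙_ C ⟶ Q ⊗ (Qᘁ : C), s ≠ 0 → ∃ r : Q ⊗ (Qᘁ : C) ⟶ 𝟙_ C, s ≫ r ≠ 0) :
    Reg Q Q := by
  have : CharZero E := charZero R
  let _ : Algebra ℚ E := DivisionRing.toRatAlgebra
  have hne : 𝟙 (𝟙_ C) ≠ 0 := fun h => not_isZero_unit R ((IsZero.iff_id_eq_zero _).2 h)
  choose c hc using fun a : Q ⟶ Q => hq (tr a)
  have hcu : ∀ x y : ℚ, x • 𝟙 (𝟙_ C) = y • 𝟙 (𝟙_ C) → x = y := fun x y h =>
    smul_left_injective ℚ hne h
  let c' : End Q →+ ℚ :=
    { toFun := fun a => c a
      map_zero' := hcu _ _ (by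
        rw [← hc, zero_smul]
        change tr (0 : Q ⟶ Q) = 0
        have h1 := tr_add (0 : Q ⟶ Q) 0
        rwa [add_zero, left_eq_add] at h1)
      map_add' := fun a b => hcu _ _ (by
        rw [← hc, add_smul, ← hc, ← hc]
        exact tr_add a b) }
  let τ : End Q →ₗ[ℚ] ℚ := c'.toRatLinearMap
  let ρ : End Q →+* Module.End E (R.H.obj Q) :=
    { toFun := fun a => (R.H.map a).hom
      map_one' := by
        change (R.H.map (𝟙 Q)).hom = _
        rw [CategoryTheory.Functor.map_id]
        rfl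
      map_mul' := fun a b => by
        change (R.H.map (b ≫ a)).hom = _
        rw [Functor.map_comp]
        rfl
      map_zero' := by
        rw [show (0 : End Q) = (0 : Q ⟶ Q) from rfl, Functor.map_zero]
        rfl
      map_add' := fun a b => by
        change (R.H.map ((a : Q ⟶ Q) + (b : Q ⟶ Q))).hom = _
        rw [Functor.map_add]
        rfl }
  let g : ℚ →+ E :=
    { toFun := fun x => (ε R.H ≫ R.H.map (x • 𝟙 (𝟙_ C)) ≫ inv (ε R.H)).hom (1 : E)
      map_zero' := by
        rw [zero_smul, Functor.map_zero, zero_comp, comp_zero]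
        rfl
      map_add' := fun x y => by
        rw [add_smul, Functor.map_add, Preadditive.add_comp, Preadditive.comp_add]
        rfl }
  have hg : ∀ x : ℚ, g x = algebraMap ℚ E x := by
    intro x
    have h1 : g 1 = 1 := by
      change (ε R.H ≫ R.H.map ((1 : ℚ) • 𝟙 (𝟙_ C)) ≫ inv (ε R.H)).hom (1 : E) = 1
      rw [one_smul, CategoryTheory.Functor.map_id, Category.id_comp, IsIso.hom_inv_id]
      rfl
    have h2 := g.toRatLinearMap.map_smul x 1
    rw [smul_eq_mul, mul_one] at h2
    have h3 : g x = x • g 1 := h2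
    rw [h3, h1, Algebra.algebraMap_eq_smul_one]
  have hτ : ∀ a, LinearMap.trace E (R.H.obj Q) (ρ a) = algebraMap ℚ E (τ a) := by
    intro a
    rw [← hg]
    have h1 := H_trace hQ a
    rw [hc a] at h1
    exact h1.symm
  have hinj : Function.Injective (algebraMap ℚ E) := (algebraMap ℚ E).injective
  have hnd : ∀ a : End Q, a ≠ 0 → ∃ b, τ (a * b) ≠ 0 := by
    intro a ha
    obtain ⟨r, hr⟩ := hN (nm a) (fun h => ha (eq_zero_of_nm a h))
    obtain ⟨b', hb⟩ := exists_tr r
    rw [hb a] at hr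
    let b : End Q := b'
    refine ⟨b, fun h0 => hr ?_⟩
    have h1 : algebraMap ℚ E (τ (b * a)) = algebraMap ℚ E (τ (a * b)) := by
      rw [← hτ, ← hτ, map_mul ρ, map_mul ρ]
      exact LinearMap.trace_mul_comm E (ρ b) (ρ a)
    have h2 : c (a ≫ b') = 0 := by
      have h3 := hinj h1
      rw [h0] at h3
      exact h3
    rw [hc (a ≫ b'), h2, zero_smul]
  intro a
  obtain ⟨b, hb⟩ := regular_of_trace ρ τ hτ hnd a
  exact ⟨b, hb⟩

end

section

variable {C : Type u} [Category.{v} C] [Preadditive C] [HasZeroObject C]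
  [HasShift C ℤ] [∀ n : ℤ, (shiftFunctor C n).Additive] [Pretriangulated C]

lemma reg_of_end {X Y : C} (h : Reg (X ⊞ Y) (X ⊞ Y)) : Reg X Y :=
  (h.left_retract biprod.inl biprod.fst biprod.inl_fst).right_retract biprod.inr biprod.snd
    biprod.inr_snd

lemma Reg.shift {X Y : C} (h : Reg X Y) (n : ℤ) : Reg (X⟦n⟧) (Y⟦n⟧) := by
  intro f
  obtain ⟨f, rfl⟩ := (shiftFunctor C n).map_surjective f
  obtain ⟨g, hg⟩ := h f
  exact ⟨g⟦n⟧', by rw [← Functor.map_comp, ← Functor.map_comp, hg]⟩

lemma Reg.of_shift {X Y : C} (n : ℤ) (h : Reg (X⟦n⟧) (Y⟦n⟧)) : Reg X Y := by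
  intro f
  obtain ⟨g, hg⟩ := h (f⟦n⟧')
  obtain ⟨g, rfl⟩ := (shiftFunctor C n).map_surjective g
  refine ⟨g, (shiftFunctor C n).map_injective ?_⟩
  rw [Functor.map_comp, Functor.map_comp, hg]

end

end Pool.Agent.Helper812_FF
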