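import Pool.Agent.Helper812_FF.Dual

/-!
# Regular morphisms
-/

set_option autoImplicit false
set_option linter.unusedSectionVars false
set_option linter.unusedSimpArgs false
set_option backward.isDefEq.respectTransparency false
set_option backward.defeqAttrib.useBackward true

open CategoryTheory Limits MonoidalCategory Pretriangulated Triangulated

namespace Pool.Agent.Helper812_FF

open Pool.Agent.Y116.MT Pool.Agent.V1178.MT Pool.Agent.Helper812_LT Pool.Agent.Helper812_MT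

universe v u w

section

variable {C : Type u} [Category.{v} C] [Preadditive C]

/-- Every morphism from `X` to `Y` has a pseudo-inverse. -/
def Reg (X Y : C) : Prop := ∀ f : X ⟶ Y, ∃ g : Y ⟶ X, f ≫ g ≫ f = f

lemma reg_of_zero {X Y : C} (h : ∀ f : X ⟶ Y, f = 0) : Reg X Y := fun f =>
  ⟨0, by rw [h f]; simp⟩

lemma reg_left_aux {X₁ X₂ Y : C} (f₁ : X₁ ⟶ Y) (f₂ : X₂ ⟶ Y) (g₁ : Y ⟶ X₁)
    (hg : f₁ ≫ g₁ ≫ f₁ = f₁) (h : Y ⟶ X₂)
    (hh : (f₂ ≫ (𝟙 Y - g₁ ≫ f₁)) ≫ h ≫ (f₂ ≫ (𝟙 Y - g₁ ≫ f₁)) = f₂ ≫ (𝟙 Y - g₁ ≫ f₁)) :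
    ∃ (a : Y ⟶ X₁) (b : Y ⟶ X₂), f₁ ≫ (a ≫ f₁ + b ≫ f₂) = f₁ ∧ f₂ ≫ (a ≫ f₁ + b ≫ f₂) = f₂ := by
  have hfe : f₁ ≫ (𝟙 Y - g₁ ≫ f₁) = 0 := by
    rw [Preadditive.comp_sub, Category.comp_id, hg, sub_self]
  have key : (g₁ - (𝟙 Y - g₁ ≫ f₁) ≫ h ≫ f₂ ≫ g₁) ≫ f₁ + ((𝟙 Y - g₁ ≫ f₁) ≫ h) ≫ f₂ =
      g₁ ≫ f₁ + (𝟙 Y - g₁ ≫ f₁) ≫ h ≫ f₂ ≫ (𝟙 Y - g₁ ≫ f₁) := by
    rw [Preadditive.sub_comp, Preadditive.comp_sub f₂, Category.comp_id,
      Preadditive.comp_sub h, Preadditive.comp_sub (𝟙 Y - g₁ ≫ f₁)]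
    simp only [Category.assoc]
    abel
  refine ⟨g₁ - (𝟙 Y - g₁ ≫ f₁) ≫ h ≫ f₂ ≫ g₁, (𝟙 Y - g₁ ≫ f₁) ≫ h, ?_, ?_⟩
  · rw [key, Preadditive.comp_add, ← Category.assoc f₁ (𝟙 Y - g₁ ≫ f₁), hfe, zero_comp, add_zero,
      hg]
  · rw [key, Preadditive.comp_add, ← Category.assoc f₂ (𝟙 Y - g₁ ≫ f₁), hh,
        Preadditive.comp_sub, Category.comp_id]
    abel

lemma Reg.left {X X₁ X₂ Y : C} {i₁ : X₁ ⟶ X} {r₁ : X ⟶ X₁} {i₂ : X₂ ⟶ X} {r₂ : X ⟶ X₂}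
    (d : Deco i₁ r₁ i₂ r₂) (h₁ : Reg X₁ Y) (h₂ : Reg X₂ Y) : Reg X Y := by
  intro f
  obtain ⟨g₁, hg₁⟩ := h₁ (i₁ ≫ f)
  obtain ⟨h, hh⟩ := h₂ ((i₂ ≫ f) ≫ (𝟙 Y - g₁ ≫ i₁ ≫ f))
  obtain ⟨a, b, h1, h2⟩ := reg_left_aux (i₁ ≫ f) (i₂ ≫ f) g₁ hg₁ h hh
  refine ⟨a ≫ i₁ + b ≫ i₂, ?_⟩
  have e1 : f = r₁ ≫ i₁ ≫ f + r₂ ≫ i₂ ≫ f := by
    rw [← Category.assoc, ← Category.assoc, ← Preadditive.add_comp, d.sum, Category.id_comp]
  rw [Preadditive.add_comp, Category.assoc, Category.assoc]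
  generalize a ≫ i₁ ≫ f + b ≫ i₂ ≫ f = k at h1 h2
  have e2 : f ≫ k = (r₁ ≫ i₁ ≫ f + r₂ ≫ i₂ ≫ f) ≫ k := by rw [← e1]
  rw [e2, Preadditive.add_comp, Category.assoc r₁, Category.assoc r₂, h1, h2, ← e1]

lemma reg_right_aux {X Y₁ Y₂ : C} (f₁ : X ⟶ Y₁) (f₂ : X ⟶ Y₂) (g₁ : Y₁ ⟶ X)
    (hg : f₁ ≫ g₁ ≫ f₁ = f₁) (h : Y₂ ⟶ X)
    (hh : ((𝟙 X - f₁ ≫ g₁) ≫ f₂) ≫ h ≫ ((𝟙 X - f₁ ≫ g₁) ≫ f₂) = (𝟙 X - f₁ ≫ g₁) ≫ f₂) :
    ∃ (a : Y₁ ⟶ X) (b : Y₂ ⟶ X), (f₁ ≫ a + f₂ ≫ b) ≫ f₁ = f₁ ∧ (f₁ ≫ a + f₂ ≫ b) ≫ f₂ = f₂ := by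
  have hef : (f₁ ≫ g₁) ≫ f₁ = f₁ := by rw [Category.assoc, hg]
  have hfe : (𝟙 X - f₁ ≫ g₁) ≫ f₁ = 0 := by
    rw [Preadditive.sub_comp, Category.id_comp, hef, sub_self]
  have key : f₁ ≫ (g₁ - g₁ ≫ f₂ ≫ h ≫ (𝟙 X - f₁ ≫ g₁)) + f₂ ≫ h ≫ (𝟙 X - f₁ ≫ g₁) =
      f₁ ≫ g₁ + ((𝟙 X - f₁ ≫ g₁) ≫ f₂) ≫ h ≫ (𝟙 X - f₁ ≫ g₁) := by
    rw [Preadditive.comp_sub f₁, Preadditive.sub_comp (𝟙 X) (f₁ ≫ g₁) f₂, Category.id_comp,
      Preadditive.sub_comp f₂]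
    simp only [Category.assoc]
    abel
  refine ⟨g₁ - g₁ ≫ f₂ ≫ h ≫ (𝟙 X - f₁ ≫ g₁), h ≫ (𝟙 X - f₁ ≫ g₁), ?_, ?_⟩
  · rw [key, Preadditive.add_comp, hef, Category.assoc ((𝟙 X - f₁ ≫ g₁) ≫ f₂),
      Category.assoc h, hfe, comp_zero, comp_zero, add_zero]
  · rw [key, Preadditive.add_comp, Category.assoc ((𝟙 X - f₁ ≫ g₁) ≫ f₂),
      Category.assoc h, hh, Preadditive.sub_comp, Category.id_comp]
    abel

lemma Reg.right {X Y Y₁ Y₂ : C} {i₁ : Y₁ ⟶ Y} {r₁ : Y ⟶ Y₁} {i₂ : Y₂ ⟶ Y} {r₂ : Y ⟶ Y₂}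
    (d : Deco i₁ r₁ i₂ r₂) (h₁ : Reg X Y₁) (h₂ : Reg X Y₂) : Reg X Y := by
  intro f
  obtain ⟨g₁, hg₁⟩ := h₁ (f ≫ r₁)
  obtain ⟨h, hh⟩ := h₂ ((𝟙 X - (f ≫ r₁) ≫ g₁) ≫ f ≫ r₂)
  obtain ⟨a, b, h1, h2⟩ := reg_right_aux (f ≫ r₁) (f ≫ r₂) g₁ hg₁ h hh
  refine ⟨r₁ ≫ a + r₂ ≫ b, ?_⟩
  have e1 : f = (f ≫ r₁) ≫ i₁ + (f ≫ r₂) ≫ i₂ := by
    rw [Category.assoc, Category.assoc, ← Preadditive.comp_add, d.sum, Category.comp_id]
  rw [← Category.assoc, Preadditive.comp_add, ← Category.assoc, ← Category.assoc]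
  generalize (f ≫ r₁) ≫ a + (f ≫ r₂) ≫ b = k at h1 h2
  have e2 : k ≫ f = k ≫ ((f ≫ r₁) ≫ i₁ + (f ≫ r₂) ≫ i₂) := by rw [← e1]
  rw [e2, Preadditive.comp_add, ← Category.assoc k (f ≫ r₁), ← Category.assoc k (f ≫ r₂), h1, h2,
    ← e1]

lemma Reg.left_retract {X X' Y : C} (i : X' ⟶ X) (r : X ⟶ X') (hir : i ≫ r = 𝟙 X')
    (h : Reg X Y) : Reg X' Y := by
  intro f
  obtain ⟨g, hg⟩ := h (r ≫ f)
  refine ⟨g ≫ r, ?_⟩
  have h1 : i ≫ (r ≫ f) ≫ g ≫ r ≫ f = i ≫ r ≫ f := by rw [hg]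
  rw [← Category.assoc i (r ≫ f), ← Category.assoc i r f, hir, Category.id_comp] at h1
  rw [Category.assoc, h1]

lemma Reg.right_retract {X Y Y' : C} (i : Y' ⟶ Y) (r : Y ⟶ Y') (hir : i ≫ r = 𝟙 Y')
    (h : Reg X Y) : Reg X Y' := by
  intro f
  obtain ⟨g, hg⟩ := h (f ≫ i)
  refine ⟨i ≫ g, ?_⟩
  have h1 : ((f ≫ i) ≫ g ≫ f ≫ i) ≫ r = (f ≫ i) ≫ r := by rw [hg]
  simp only [Category.assoc, hir, Category.comp_id] at h1
  rw [Category.assoc, h1]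

/-- The closure of a class of objects under direct sums and direct summands. -/
inductive Env (B : ObjectProperty C) : C → Prop
  | base (X : C) : B X → Env B X
  | zero (X : C) : IsZero X → Env B X
  | deco (X X₁ X₂ : C) (i₁ : X₁ ⟶ X) (r₁ : X ⟶ X₁) (i₂ : X₂ ⟶ X) (r₂ : X ⟶ X₂) :
      Deco i₁ r₁ i₂ r₂ → Env B X₁ → Env B X₂ → Env B X
  | retract (X Y : C) (i : X ⟶ Y) (r : Y ⟶ X) : i ≫ r = 𝟙 X → Env B Y → Env B X

/-- All morphisms between sums of summands of objects in `B` are regular if those between the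
objects in `B` are. -/
theorem reg_env {B : ObjectProperty C} (h : ∀ X Y, B X → B Y → Reg X Y) {X Y : C}
    (hX : Env B X) (hY : Env B Y) : Reg X Y := by
  induction hX with
  | base X hX =>
    induction hY with
    | base Y hY => exact h X Y hX hY
    | zero Y hY => exact reg_of_zero fun f => hY.eq_of_tgt _ _
    | deco Y Y₁ Y₂ i₁ r₁ i₂ r₂ d _ _ h1 h2 => exact Reg.right d h1 h2
    | retract Y Y' i r hir _ h1 => exact Reg.right_retract i r hir h1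
  | zero X hX => exact reg_of_zero fun f => hX.eq_of_src _ _
  | deco X X₁ X₂ i₁ r₁ i₂ r₂ d _ _ h1 h2 => exact Reg.left d h1 h2
  | retract X X' i r hir _ h1 => exact Reg.left_retract i r hir h1

/-- A relation on pairs of objects which is compatible with sums and summands. -/
theorem zero_env {B : ObjectProperty C} {F : ∀ {X Y : C}, (X ⟶ Y) → Prop}
    (h : ∀ X Y, B X → B Y → ∀ f : X ⟶ Y, F f → f = 0)
    (hl : ∀ {X Y Z : C} (a : X ⟶ Y) (f : Y ⟶ Z), F f → F (a ≫ f))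
    (hr : ∀ {X Y Z : C} (f : X ⟶ Y) (a : Y ⟶ Z), F f → F (f ≫ a)) {X Y : C}
    (hX : Env B X) (hY : Env B Y) : ∀ f : X ⟶ Y, F f → f = 0 := by
  induction hX with
  | base X hX =>
    induction hY with
    | base Y hY => exact h X Y hX hY
    | zero Y hY => exact fun f _ => hY.eq_of_tgt _ _
    | deco Y Y₁ Y₂ i₁ r₁ i₂ r₂ d _ _ h1 h2 =>
      intro f hf
      rw [← Category.comp_id f, ← d.sum, Preadditive.comp_add, ← Category.assoc,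
        ← Category.assoc, h1 _ (hr _ _ hf), h2 _ (hr _ _ hf), zero_comp, zero_comp, add_zero]
    | retract Y Y' i r hir _ h1 =>
      intro f hf
      rw [← Category.comp_id f, ← hir, ← Category.assoc, h1 _ (hr _ _ hf), zero_comp]
  | zero X hX => exact fun f _ => hX.eq_of_src _ _
  | deco X X₁ X₂ i₁ r₁ i₂ r₂ d _ _ h1 h2 =>
    intro f hf
    rw [← Category.id_comp f, ← d.sum, Preadditive.add_comp, Category.assoc,
      Category.assoc, h1 _ (hl _ _ hf), h2 _ (hl _ _ hf), comp_zero, comp_zero, add_zero]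
  | retract X X' i r hir _ h1 =>
    intro f hf
    rw [← Category.id_comp f, ← hir, Category.assoc, h1 _ (hl _ _ hf), comp_zero]

end

section

variable {C : Type u} [Category.{v} C] [Preadditive C] [HasZeroObject C] [HasShift C ℤ]
  [∀ n : ℤ, (shiftFunctor C n).Additive] [Pretriangulated C]

/-- An extension given by a regular morphism is a direct summand of the direct sum. -/
theorem retract_of_reg {X Y Z : C} {f : X ⟶ Y} {g : Y ⟶ Z} {h : Z ⟶ X⟦(1 : ℤ)⟧}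
    (hT : Triangle.mk f g h ∈ distTriang C) (k : X⟦(1 : ℤ)⟧ ⟶ Z) (hk : h ≫ k ≫ h = h) :
    ∃ (i : Y ⟶ X ⊞ Z) (r : X ⊞ Z ⟶ Y), i ≫ r = 𝟙 Y := by
  obtain ⟨σ, hσ⟩ := ce3 hT (𝟙 Z - h ≫ k) (by
    rw [Preadditive.sub_comp, Category.id_comp, Category.assoc, hk, sub_self])
  obtain ⟨u, hu⟩ := (shiftFunctor C (1 : ℤ)).map_surjective (𝟙 _ - k ≫ h)
  obtain ⟨ρ, hρ⟩ := ye1' hT u (by
    rw [hu, Preadditive.comp_sub, Category.comp_id, hk, sub_self])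
  set θ := 𝟙 Y - ρ ≫ f - g ≫ σ with hθ
  have h1 : θ ≫ g = 0 := by
    rw [hθ, Preadditive.sub_comp, Preadditive.sub_comp, Category.id_comp, Category.assoc,
      comp12 hT, comp_zero, Category.assoc, ← hσ, Preadditive.comp_sub, Category.comp_id,
      ← Category.assoc g h, comp23 hT, zero_comp]
    abel
  have h2 : f ≫ θ = 0 := by
    apply (shiftFunctor C (1 : ℤ)).map_injective
    have h3 : f ≫ θ = f - u ≫ f := by
      rw [hθ, Preadditive.comp_sub, Preadditive.comp_sub, Category.comp_id, ← Category.assoc f ρ,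
        ← hρ, ← Category.assoc f g, comp12 hT, zero_comp, sub_zero]
    rw [h3, Functor.map_sub, Functor.map_comp, hu, Functor.map_zero, Preadditive.sub_comp,
      Category.id_comp, Category.assoc, comp31 hT, comp_zero, sub_zero, sub_self]
  obtain ⟨m, hm⟩ := ce2 hT θ h1
  have h4 : θ ≫ θ = 0 := by
    have h5 : (m ≫ f) ≫ θ = 0 := by rw [Category.assoc, h2, comp_zero]
    rwa [← hm] at h5
  refine ⟨biprod.lift ρ g, biprod.desc f σ ≫ (𝟙 Y + θ), ?_⟩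
  rw [← Category.assoc, biprod.lift_desc]
  have h5 : ρ ≫ f + g ≫ σ = 𝟙 Y - θ := by
    rw [hθ]
    abel
  rw [h5, Preadditive.comp_add, Category.comp_id, Preadditive.sub_comp, Category.id_comp, h4]
  abel

lemma deco_biprod (X Y : C) : Deco (biprod.inl : X ⟶ X ⊞ Y) biprod.fst (biprod.inr : Y ⟶ X ⊞ Y)
    biprod.snd := ⟨biprod.inl_fst, biprod.inr_snd, biprod.total⟩

lemma Deco.map {D : Type*} [Category* D] [Preadditive D] (F : C ⥤ D) [F.Additive] {X X₁ X₂ : C}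
    {i₁ : X₁ ⟶ X} {r₁ : X ⟶ X₁} {i₂ : X₂ ⟶ X} {r₂ : X ⟶ X₂} (d : Deco i₁ r₁ i₂ r₂) :
    Deco (F.map i₁) (F.map r₁) (F.map i₂) (F.map r₂) := by
  refine ⟨?_, ?_, ?_⟩
  · rw [← Functor.map_comp, d.one, CategoryTheory.Functor.map_id]
  · rw [← Functor.map_comp, d.two, CategoryTheory.Functor.map_id]
  · rw [← Functor.map_comp, ← Functor.map_comp, ← Functor.map_add, d.sum,
      CategoryTheory.Functor.map_id]

/-- If the morphisms between the objects in `B` are regular and `B` is stable under shifts, the sums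
of summands of objects in `B` form a thick subcategory. -/
theorem env_top [IsTriangulated C] {B P : ObjectProperty C} (hB : ∀ X Y, B X → B Y → Reg X Y)
    (hs : ∀ X (n : ℤ), B X → B (X⟦n⟧)) (hP : ∀ X, P X → Env B X)
    (hg : P.IsClassicalTriangulatedGenerator) (X : C) : Env B X := by
  let D : ObjectProperty C := fun X => Env B X
  have h1 : D.ContainsZero := ⟨_, isZero_zero C, Env.zero _ (isZero_zero C)⟩
  have h2 : D.IsStableUnderShift ℤ := ⟨fun m => ⟨fun X hX => by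
    change Env B X at hX
    change Env B (X⟦m⟧)
    induction hX with
    | base X hX => exact Env.base _ (hs X m hX)
    | zero X hX => exact Env.zero _ ((shiftFunctor C m).map_isZero hX)
    | deco X X₁ X₂ i₁ r₁ i₂ r₂ d _ _ h1 h2 =>
      exact Env.deco _ _ _ _ _ _ _ (d.map (shiftFunctor C m)) h1 h2
    | retract X Y i r hir _ h1 =>
      exact Env.retract _ _ (i⟦m⟧') (r⟦m⟧') (by
        rw [← Functor.map_comp, hir, CategoryTheory.Functor.map_id]) h1⟩⟩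
  have h3 : D.IsTriangulatedClosed₂ := ⟨fun T hT h4 h5 => by
    refine ObjectProperty.le_isoClosure _ _ ?_
    have h6 : Env B (T.obj₁⟦(1 : ℤ)⟧) := (h2.isStableUnderShiftBy 1).le_shift _ h4
    obtain ⟨k, hk⟩ := reg_env hB h5 h6 T.mor₃
    obtain ⟨i, r, hir⟩ := retract_of_reg (f := T.mor₁) (g := T.mor₂) (h := T.mor₃) hT k hk
    exact Env.retract _ _ i r hir (Env.deco _ _ _ _ _ _ _ (deco_biprod _ _) h4 h5)⟩
  have h4 : D.IsStableUnderRetracts := ⟨fun e h => Env.retract _ _ e.i e.r e.retract h⟩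
  have h5 : D.IsTriangulated := {}
  have h6 : P.triangEnvelope ≤ D := by
    rw [ObjectProperty.triangEnvelope_le_iff]
    exact hP
  rw [(ObjectProperty.isClassicalTriangulatedGenerator_iff _).1 hg] at h6
  exact h6 X trivial

end

end Pool.Agent.Helper812_FF
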